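import Pool.Agent.TH138.NF.Proj

/-!
# The upper bound, asymptotic form
-/

set_option autoImplicit false

namespace Pool.Agent.TH138.NF

open Finset Filter

variable {κ : Type}

theorem two_rpow_ge (x : ℝ) : x ≤ (2 : ℝ) ^ x := by
  have h1 : (2 : ℝ) ^ x = Real.exp (Real.log 2 * x) := by
    rw [Real.rpow_def_of_pos (by norm_num)]
  rcases le_or_gt x 0 with h | h
  · exact h.trans (by positivity)
  · have hl : (0.6931471803 : ℝ) < Real.log 2 := Real.log_two_gt_d9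
    have h2 : 1 + (Real.log 2 * x) / 2 ≤ Real.exp (Real.log 2 * x / 2) := by
      have := Real.add_one_le_exp (Real.log 2 * x / 2)
      linarith
    have h3 : Real.exp (Real.log 2 * x) =
        Real.exp (Real.log 2 * x / 2) * Real.exp (Real.log 2 * x / 2) := by
      rw [← Real.exp_add]; ring_nf
    rw [h1, h3]
    have h4 : 0 ≤ 1 + (Real.log 2 * x) / 2 := by positivity
    have h5 : (1 + (Real.log 2 * x) / 2) * (1 + (Real.log 2 * x) / 2) ≤
        Real.exp (Real.log 2 * x / 2) * Real.exp (Real.log 2 * x / 2) :=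
      mul_le_mul h2 h2 h4 (h4.trans h2)
    refine le_trans ?_ h5
    have h6 : 0.69 * x ≤ Real.log 2 * x := by nlinarith
    nlinarith [sq_nonneg (Real.log 2 * x - 1), sq_nonneg (Real.log 2 * x / 2 - 1), h6,
      sq_nonneg (x - 1)]

theorem two_rpow_gap {x y : ℝ} (hy : 1 ≤ y) (hxy : y ≤ x) :
    x - y ≤ (2 : ℝ) ^ x - (2 : ℝ) ^ y := by
  have hl : (0.6931471803 : ℝ) < Real.log 2 := Real.log_two_gt_d9
  have h1 : (2 : ℝ) ^ x = 2 ^ y * 2 ^ (x - y) := by
    rw [← Real.rpow_add (by norm_num)]; ring_nf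
  have h2 : 1 + Real.log 2 * (x - y) ≤ (2 : ℝ) ^ (x - y) := by
    rw [Real.rpow_def_of_pos (by norm_num)]
    have := Real.add_one_le_exp (Real.log 2 * (x - y))
    linarith
  have h3 : (2 : ℝ) ≤ 2 ^ y := by
    calc (2 : ℝ) = 2 ^ (1 : ℝ) := by norm_num
      _ ≤ 2 ^ y := Real.rpow_le_rpow_of_exponent_le (by norm_num) hy
  have h4 : 0 ≤ x - y := by linarith
  rw [h1]
  have h5 : (2 : ℝ) ^ y * (1 + Real.log 2 * (x - y)) ≤ 2 ^ y * 2 ^ (x - y) :=
    mul_le_mul_of_nonneg_left h2 (by positivity)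
  have h6 : (x - y) ≤ 2 ^ y * (Real.log 2 * (x - y)) := by
    have : 0.69 * (x - y) ≤ Real.log 2 * (x - y) := by nlinarith
    nlinarith
  nlinarith

theorem tow_mono (k : ℕ) {x y : ℝ} (h : x ≤ y) : tow k x ≤ tow k y := by
  induction k with
  | zero => exact h
  | succ k ih => exact Real.rpow_le_rpow_of_exponent_le (by norm_num) ih

theorem le_tow (k : ℕ) (x : ℝ) : x ≤ tow k x := by
  induction k with
  | zero => exact le_rfl
  | succ k ih => exact ih.trans (two_rpow_ge _)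

theorem tow_gap (k : ℕ) {x y : ℝ} (hy : 1 ≤ y) (hxy : y ≤ x) : x - y ≤ tow k x - tow k y := by
  induction k with
  | zero => exact le_rfl
  | succ k ih =>
    refine ih.trans (two_rpow_gap (hy.trans (le_tow k y)) (tow_mono k hxy))

/-- growth of the tower -/
theorem tow_big (k : ℕ) (C : ℕ) (ε₁ ε : ℝ) (h1 : 0 < ε₁) (h2 : ε₁ < ε) :
    ∃ n₀ : ℕ, ∀ n : ℕ, n₀ ≤ n → C * tow (k + 1) (ε₁ * n) ≤ tow (k + 1) (ε * n) := by
  obtain ⟨a, ha⟩ := exists_nat_gt (1 / ε₁)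
  obtain ⟨a', ha'⟩ := exists_nat_gt (C / (ε - ε₁))
  refine ⟨max a a', fun n hn => ?_⟩
  have hn1 : (a : ℝ) ≤ n := by exact_mod_cast (le_max_left _ _).trans hn
  have hn2 : (a' : ℝ) ≤ n := by exact_mod_cast (le_max_right _ _).trans hn
  have h3 : 1 ≤ ε₁ * n := by
    rw [div_lt_iff₀ h1] at ha
    nlinarith
  have h4 : (C : ℝ) ≤ (ε - ε₁) * n := by
    rw [div_lt_iff₀ (by linarith)] at ha'
    nlinarith
  have h5 : ε₁ * n ≤ ε * n := by nlinarith [(Nat.cast_nonneg n : (0 : ℝ) ≤ n)]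
  have h6 := tow_gap k h3 h5
  have h7 : (C : ℝ) ≤ 2 ^ (C : ℝ) := two_rpow_ge _
  calc (C : ℝ) * tow (k + 1) (ε₁ * n) ≤ 2 ^ (C : ℝ) * tow (k + 1) (ε₁ * n) := by
        apply mul_le_mul_of_nonneg_right h7
        exact (zero_le_one.trans h3).trans (le_tow _ _)
    _ = 2 ^ ((C : ℝ) + tow k (ε₁ * n)) := by
        rw [Real.rpow_add (by norm_num)]
        rfl
    _ ≤ tow (k + 1) (ε * n) := by
        apply Real.rpow_le_rpow_of_exponent_le (by norm_num)
        linarith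

theorem nat_le_rpow (ε : ℝ) (hε : 0 < ε) :
    ∃ n₀ : ℕ, ∀ n : ℕ, n₀ ≤ n → (n : ℝ) ≤ 2 ^ (ε * n) := by
  obtain ⟨a, ha⟩ := exists_nat_gt (4 / (ε ^ 2))
  refine ⟨a, fun n hn => ?_⟩
  have hn1 : (a : ℝ) ≤ n := by exact_mod_cast hn
  have h1 : 4 < ε ^ 2 * n := by
    rw [div_lt_iff₀ (by positivity)] at ha
    nlinarith [sq_nonneg ε]
  have h2 : ε * n / 2 ≤ (2 : ℝ) ^ (ε * n / 2) := two_rpow_ge _
  have h3 : (2 : ℝ) ^ (ε * n) = 2 ^ (ε * n / 2) * 2 ^ (ε * n / 2) := by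
    rw [← Real.rpow_add (by norm_num)]; ring_nf
  have h4 : 0 ≤ ε * n / 2 := by positivity
  rw [h3]
  have h5 := mul_le_mul h2 h2 h4 (h4.trans h2)
  refine le_trans ?_ h5
  have hn0 : (0 : ℝ) ≤ n := Nat.cast_nonneg n
  nlinarith

theorem B_pos {b n : ℕ} (hn : 1 ≤ n) (s : ℕ) : 1 ≤ B b n s := by
  cases s with
  | zero => exact Nat.mul_pos (by positivity) hn
  | succ s => exact Nat.one_le_iff_ne_zero.2 (by unfold B; positivity)

theorem B_le (s : ℕ) : ∀ ε : ℝ, 0 < ε → ∃ δ : ℝ, 0 < δ ∧ ∃ n₀ : ℕ, ∀ n : ℕ, n₀ ≤ n →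
    ∀ b : ℕ, (b : ℝ) ≤ δ * n → (B b n s : ℝ) ≤ tow (s + 1) (ε * n) := by
  induction s with
  | zero =>
    intro ε hε
    obtain ⟨n₀, h0⟩ := nat_le_rpow (ε / 2) (by positivity)
    refine ⟨ε / 2, by positivity, n₀, fun n hn b hb => ?_⟩
    have h1 := h0 n hn
    simp only [B, tow]
    push_cast
    have h2 : (2 : ℝ) ^ b ≤ 2 ^ (ε / 2 * n) := by
      rw [← Real.rpow_natCast]
      exact Real.rpow_le_rpow_of_exponent_le (by norm_num) hb
    calc (2 : ℝ) ^ b * n ≤ 2 ^ (ε / 2 * n) * 2 ^ (ε / 2 * n) :=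
          mul_le_mul h2 h1 (Nat.cast_nonneg _) (by positivity)
      _ = 2 ^ (ε * n) := by rw [← Real.rpow_add (by norm_num)]; ring_nf
  | succ s ih =>
    intro ε hε
    obtain ⟨δ, hδ, n₀, h0⟩ := ih (ε / 4) (by positivity)
    have hexp : ∃ n₁ : ℕ, ∀ n : ℕ, n₁ ≤ n → ∀ b : ℕ, (b : ℝ) ≤ ε / 4 * n →
        (b : ℝ) + (s + 2) + (s + 1) * tow s (ε / 4 * n) ≤ tow s (ε * n) := by
      cases s with
      | zero =>
        obtain ⟨a, ha⟩ := exists_nat_gt (4 / ε)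
        refine ⟨a, fun n hn b hb => ?_⟩
        have hn1 : (a : ℝ) ≤ n := by exact_mod_cast hn
        have : 4 < ε * n := by
          rw [div_lt_iff₀ hε] at ha
          nlinarith
        simp only [tow]
        push_cast
        linarith
      | succ t =>
        obtain ⟨n₂, h2⟩ := tow_big t (2 * t + 6) (ε / 4) ε (by positivity) (by linarith)
        obtain ⟨a, ha⟩ := exists_nat_gt (4 / ε)
        refine ⟨max n₂ a, fun n hn b hb => ?_⟩
        have h3 := h2 n ((le_max_left _ _).trans hn)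
        have hn1 : (a : ℝ) ≤ n := by exact_mod_cast (le_max_right _ _).trans hn
        have h4 : 1 ≤ ε / 4 * n := by
          rw [div_lt_iff₀ hε] at ha
          nlinarith
        have h5 := le_tow (t + 1) (ε / 4 * n)
        set T := tow (t + 1) (ε / 4 * n) with hT
        push_cast at h3 ⊢
        have ht : (0 : ℝ) ≤ t := Nat.cast_nonneg t
        nlinarith
    obtain ⟨n₁, h1⟩ := hexp
    refine ⟨min δ (ε / 4), by positivity, max (max n₀ n₁) 1, fun n hn b hb => ?_⟩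
    have hn0 : n₀ ≤ n := (le_max_left _ _).trans ((le_max_left _ _).trans hn)
    have hn1 : n₁ ≤ n := (le_max_right _ _).trans ((le_max_left _ _).trans hn)
    have hn2 : 1 ≤ n := (le_max_right _ _).trans hn
    have hnn : (0 : ℝ) ≤ n := Nat.cast_nonneg n
    have hb1 : (b : ℝ) ≤ δ * n := hb.trans (mul_le_mul_of_nonneg_right (min_le_left _ _) hnn)
    have hb2 : (b : ℝ) ≤ ε / 4 * n := hb.trans (mul_le_mul_of_nonneg_right (min_le_right _ _) hnn)
    have hk := h0 n hn0 b hb1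
    have hk1 : 1 ≤ B b n s := B_pos hn2 s
    have hE := h1 n hn1 b hb2
    set k := B b n s with hkd
    -- the exponent
    have e1 : (B b n (s + 1) : ℝ) = (2 : ℝ) ^ (((k * (1 + 2 ^ b * ((s + 1) * k ^ s)) : ℕ)) : ℝ) := by
      rw [Real.rpow_natCast]
      simp only [B, ← hkd]
      push_cast
      rw [← pow_succ', ← pow_mul]
      ring_nf
    rw [e1]
    change (2 : ℝ) ^ _ ≤ 2 ^ (tow (s + 1) (ε * n))
    apply Real.rpow_le_rpow_of_exponent_le (by norm_num)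
    have e2 : k * (1 + 2 ^ b * ((s + 1) * k ^ s)) ≤ 2 ^ b * (s + 2) * k ^ (s + 1) := by
      have h3 : 1 ≤ 2 ^ b * k ^ s := Nat.mul_pos (by positivity) (by positivity)
      calc k * (1 + 2 ^ b * ((s + 1) * k ^ s)) ≤
            k * (2 ^ b * k ^ s + 2 ^ b * ((s + 1) * k ^ s)) := by gcongr
        _ = _ := by ring
    have e3 : ((2 ^ b * (s + 2) * k ^ (s + 1) : ℕ) : ℝ) ≤
        2 ^ ((b : ℝ) + (s + 2) + (s + 1) * tow s (ε / 4 * n)) := by
      push_cast
      rw [Real.rpow_add (by norm_num), Real.rpow_add (by norm_num), Real.rpow_natCast]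
      have f1 : ((s : ℝ) + 2) ≤ 2 ^ ((s : ℝ) + 2) := two_rpow_ge _
      have f2 : (k : ℝ) ^ (s + 1) ≤ 2 ^ (((s : ℝ) + 1) * tow s (ε / 4 * n)) := by
        have f3 : (k : ℝ) ≤ 2 ^ (tow s (ε / 4 * n)) := hk
        calc (k : ℝ) ^ (s + 1) ≤ (2 ^ (tow s (ε / 4 * n))) ^ (s + 1) :=
              pow_le_pow_left₀ (Nat.cast_nonneg _) f3 _
          _ = 2 ^ (((s : ℝ) + 1) * tow s (ε / 4 * n)) := by
              rw [← Real.rpow_natCast, ← Real.rpow_mul (by norm_num)]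
              push_cast
              ring_nf
      gcongr
    calc ((k * (1 + 2 ^ b * ((s + 1) * k ^ s)) : ℕ) : ℝ)
        ≤ ((2 ^ b * (s + 2) * k ^ (s + 1) : ℕ) : ℝ) := by exact_mod_cast e2
      _ ≤ _ := e3
      _ ≤ 2 ^ (tow s (ε * n)) := Real.rpow_le_rpow_of_exponent_le (by norm_num) hE
      _ = tow (s + 1) (ε * n) := rfl

theorem homogeneous_of_hom {s : ℕ} {P : Protocol κ (s + 1)} {N : ℕ} {c : Finset ℕ → κ}
    (hP : Computes P N c) {S : Finset ℕ} (hS : S ⊆ range N) (h : Hom P S) :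
    Homogeneous (s + 2) c S := by
  intro A hA B hB hAc hBc
  have key : ∀ D ⊆ S, ∀ hD : D.card = s + 2, c D = P.run (fun i => D.orderEmbOfFin hD i) := by
    intro D hDS hD
    rw [hP _ (D.orderEmbOfFin hD).strictMono
      (fun i => mem_range.1 (hS (hDS (D.orderEmbOfFin_mem hD i))))]
    congr 1
    rw [← coe_inj, coe_image, coe_univ, Set.image_univ, range_orderEmbOfFin]
  rw [key A hA hAc, key B hB hBc]
  exact h _ _ (A.orderEmbOfFin hAc).strictMono (B.orderEmbOfFin hBc).strictMono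
    (fun i => hA (A.orderEmbOfFin_mem hAc i)) (fun i => hB (B.orderEmbOfFin_mem hBc i))

/-- **Colourings of low complexity.** -/
theorem low (s : ℕ) (ε : ℝ) (hε : 0 < ε) : ∃ δ : ℝ, 0 < δ ∧ ∃ n₀ : ℕ, ∀ n : ℕ, n₀ ≤ n →
    ∀ N : ℕ, tow (s + 1) (ε * n) ≤ N → ∀ (κ : Type) (P : Protocol κ (s + 1)) (c : Finset ℕ → κ),
      (P.bits : ℝ) ≤ δ * n → Computes P N c →
        ∃ S ⊆ range N, S.card = n ∧ Homogeneous (s + 2) c S := by
  obtain ⟨δ, hδ, n₀, h0⟩ := B_le s ε hε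
  refine ⟨δ, hδ, n₀, fun n hn N hN κ P c hb hP => ?_⟩
  have h1 := h0 n hn P.bits hb
  obtain ⟨S, hS, hc, hh⟩ := upper n s P.bits P (range N) le_rfl (by
    rw [card_range]
    exact_mod_cast h1.trans hN)
  exact ⟨S, hS, hc, homogeneous_of_hom hP hS hh⟩

/-- The explicit bound for triples. -/
theorem triples (n b N : ℕ) (hN : 2 ^ (2 ^ (2 * b + 1) * n) ≤ N) (κ : Type) (P : Protocol κ 2)
    (c : Finset ℕ → κ) (hb : P.bits ≤ b) (hP : Computes P N c) :
    ∃ S ⊆ range N, S.card = n ∧ Homogeneous 3 c S := by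
  obtain ⟨S, hS, hc, hh⟩ := upper n 1 b P (range N) hb (by
    rw [card_range]
    refine le_trans (le_of_le_of_eq (?_ : B b n 1 ≤ 2 ^ (2 ^ (2 * b + 1) * n)) rfl) hN
    simp only [B, pow_zero, mul_one, zero_add]
    rw [← pow_succ', ← pow_mul]
    apply Nat.pow_le_pow_right (by norm_num)
    have h1 : 1 ≤ 2 ^ b := Nat.one_le_two_pow
    calc (2 ^ b + 1) * (2 ^ b * n) ≤ (2 ^ b + 2 ^ b) * (2 ^ b * n) := by gcongr
      _ = 2 ^ (2 * b + 1) * n := by ring)
  exact ⟨S, hS, hc, homogeneous_of_hom hP hS hh⟩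

end Pool.Agent.TH138.NF
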