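import Mathlib

/-!
# Number-on-the-forehead protocols for colourings

The colour of an `(r + 1)`-subset `x 0 < x 1 < … < x r` is computed by `r + 1` players; player `j`
sees all the vertices except `x j` (this one is on the forehead of player `j`).
-/

set_option autoImplicit false

namespace Pool.Agent.TH138.NF

/-- A number-on-the-forehead protocol for `r + 1` players with outputs in `κ`: a binary tree. At
a node `ask j f P Q` player `j` announces the bit `f y`, which can depend in an arbitrary way on
the tuple `y` of the `r` vertices that player `j` sees; the protocol is continued with `P` if the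
bit is `false` and with `Q` if it is `true`. At a leaf `out a` the output is `a`. -/
inductive Protocol (κ : Type) (r : ℕ) : Type
  | out (a : κ) : Protocol κ r
  | ask (j : Fin (r + 1)) (f : (Fin r → ℕ) → Bool) (P Q : Protocol κ r) : Protocol κ r

variable {κ : Type} {r : ℕ}

/-- The output of the protocol if the vertices are `x 0, …, x r` (player `j` sees the tuple
`j.removeNth x`, that is `x` without its entry number `j`). -/
def Protocol.run : Protocol κ r → (Fin (r + 1) → ℕ) → κ
  | .out a, _ => a
  | .ask j f P Q, x => if f (j.removeNth x) then Q.run x else P.run x

/-- The number of bits which are announced in the worst case. -/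
def Protocol.bits : Protocol κ r → ℕ
  | .out _ => 0
  | .ask _ _ P Q => max P.bits Q.bits + 1

/-- The protocol computes the colours of the `(r + 1)`-subsets of `{0, …, N - 1}`, the vertices
being listed in increasing order. -/
def Computes (P : Protocol κ r) (N : ℕ) (c : Finset ℕ → κ) : Prop :=
  ∀ x : Fin (r + 1) → ℕ, StrictMono x → (∀ i, x i < N) → P.run x = c (Finset.univ.image x)

/-- All `k`-subsets of `S` have the same colour. -/
def Homogeneous (k : ℕ) (c : Finset ℕ → κ) (S : Finset ℕ) : Prop :=
  ∀ A ⊆ S, ∀ B ⊆ S, A.card = k → B.card = k → c A = c B

/-- The iterated exponential `2 ^ (2 ^ (… ^ x))` with `k` twos. -/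
noncomputable def tow : ℕ → ℝ → ℝ
  | 0, x => x
  | k + 1, x => 2 ^ tow k x

end Pool.Agent.TH138.NF
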