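import Pool.Agent.TH138.NF.Defs

/-!
# End-homogeneous sequences (Erdős–Rado)
-/

set_option autoImplicit false

namespace Pool.Agent.TH138.NF

open Finset

/-- number of new index tuples -/
theorem card_new (s t : ℕ) :
    Fintype.card {i : Fin (s + 1) → Fin (t + 1) // ∃ a, i a = Fin.last t} ≤
      (s + 1) * (t + 1) ^ s := by
  classical
  let F : {i : Fin (s + 1) → Fin (t + 1) // ∃ a, i a = Fin.last t} →
      Fin (s + 1) × (Fin s → Fin (t + 1)) :=
    fun i => (Classical.choose i.2, (Classical.choose i.2).removeNth i.1)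
  have hF : Function.Injective F := by
    intro i i' h
    simp only [F, Prod.mk.injEq] at h
    obtain ⟨h1, h2⟩ := h
    have e1 := Classical.choose_spec i.2
    have e2 := Classical.choose_spec i'.2
    rw [← h1] at e2 h2
    apply Subtype.ext
    rw [← Fin.insertNth_self_removeNth (Classical.choose i.2) i.1,
      ← Fin.insertNth_self_removeNth (Classical.choose i.2) i'.1, e1, e2, h2]
  have := Fintype.card_le_of_injective F hF
  simpa using this

/-- The statement of the induction. -/
theorem end_hom {Λ : Type} [Fintype Λ] [DecidableEq Λ] {s : ℕ} (L : (Fin (s + 2) → ℕ) → Λ)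
    (V : Finset ℕ) (k : ℕ) (E : ℕ)
    (hE : E = 2 * Fintype.card Λ ^ ((s + 1) * k ^ s)) (hV : E ^ k ≤ V.card) :
    ∀ t, t ≤ k → ∃ (v : ℕ → ℕ) (W : Finset ℕ), W ⊆ V ∧ E ^ (k - t) ≤ W.card ∧
      (∀ i < t, v i ∈ V) ∧ (∀ i j, i < j → j < t → v i < v j) ∧
      (∀ i < t, ∀ w ∈ W, v i < w) ∧
      (∀ i : Fin (s + 1) → ℕ, (∀ a, i a < t) → ∀ w ∈ W, ∀ w' ∈ W,
        L (Fin.snoc (fun a => v (i a)) w) = L (Fin.snoc (fun a => v (i a)) w')) ∧
      (∀ i : Fin (s + 1) → ℕ, ∀ j < t, (∀ a, i a < j) → ∀ w ∈ W,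
        L (Fin.snoc (fun a => v (i a)) (v j)) = L (Fin.snoc (fun a => v (i a)) w)) := by
  classical
  intro t
  induction t with
  | zero =>
    intro _
    refine ⟨fun _ => 0, V, Subset.rfl, by simpa using hV, by simp, by simp, by simp, ?_, by simp⟩
    intro i hi
    exact absurd (hi 0) (by omega)
  | succ t ih =>
    intro ht
    obtain ⟨v, W, hWV, hWc, hvV, hvm, hvW, h1, h2⟩ := ih (by omega)
    have hℓ : 1 ≤ Fintype.card Λ := Fintype.card_pos_iff.2 ⟨L (fun _ => 0)⟩
    set ℓ := Fintype.card Λ with hℓd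
    have hE2 : 2 ≤ E := by
      rw [hE]
      have : 1 ≤ ℓ ^ ((s + 1) * k ^ s) := Nat.one_le_pow _ _ hℓ
      omega
    have hWc' : E * E ^ (k - (t + 1)) ≤ W.card := by
      rw [← pow_succ', show k - (t + 1) + 1 = k - t by omega]
      exact hWc
    have hWpos : 0 < W.card := lt_of_lt_of_le (by positivity) hWc'
    have hWne : W.Nonempty := card_pos.1 hWpos
    set w0 := W.min' hWne with hw0
    have hw0W : w0 ∈ W := W.min'_mem hWne
    set W1 := W.erase w0 with hW1
    have hW1c : W1.card = W.card - 1 := card_erase_of_mem hw0W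
    have hW1lt : ∀ w ∈ W1, w0 < w := by
      intro w hw
      have h := mem_erase.1 hw
      exact lt_of_le_of_ne (W.min'_le w h.2) (fun e => h.1 e.symm)
    set v' := Function.update v t w0 with hv'
    have hv't : v' t = w0 := by simp [hv']
    have hv'lt : ∀ i, i < t → v' i = v i := fun i hi => by
      simp [hv', Function.update_of_ne (Nat.ne_of_lt hi)]
    -- the refinement
    let Idx := {i : Fin (s + 1) → Fin (t + 1) // ∃ a, i a = Fin.last t}
    let Φ : ℕ → (Idx → Λ) := fun w i => L (Fin.snoc (fun a => v' (i.1 a)) w)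
    have hcardΦ : Fintype.card (Idx → Λ) ≤ ℓ ^ ((s + 1) * k ^ s) := by
      rw [Fintype.card_fun]
      apply Nat.pow_le_pow_right hℓ
      refine (card_new s t).trans ?_
      exact Nat.mul_le_mul_left _ (Nat.pow_le_pow_left ht s)
    have hpig : ∃ y : Idx → Λ, E ^ (k - (t + 1)) ≤ (W1.filter (fun w => Φ w = y)).card := by
      have hsum : W1.card = ∑ y : Idx → Λ, (W1.filter (fun w => Φ w = y)).card :=
        card_eq_sum_card_fiberwise (fun x _ => mem_univ (Φ x))
      by_contra hcon
      push Not at hcon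
      have hlt : W1.card ≤ Fintype.card (Idx → Λ) * (E ^ (k - (t + 1)) - 1) := by
        rw [hsum]
        refine (sum_le_card_nsmul _ _ (E ^ (k - (t + 1)) - 1) ?_).trans ?_
        · intro y _
          have := hcon y
          omega
        · rw [smul_eq_mul, card_univ]
      have h5 : Fintype.card (Idx → Λ) * (E ^ (k - (t + 1)) - 1) ≤
          ℓ ^ ((s + 1) * k ^ s) * (E ^ (k - (t + 1)) - 1) := Nat.mul_le_mul_right _ hcardΦ
      have h6 : 1 ≤ ℓ ^ ((s + 1) * k ^ s) := Nat.one_le_pow _ _ hℓ
      have h7 : 1 ≤ E ^ (k - (t + 1)) := Nat.one_le_pow _ _ (by omega)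
      set p := ℓ ^ ((s + 1) * k ^ s) with hp
      set q := E ^ (k - (t + 1)) with hq
      rw [hE] at hWc'
      obtain ⟨q', hq'⟩ : ∃ q', q = q' + 1 := ⟨q - 1, by omega⟩
      rw [hq'] at hWc' hlt h5
      simp only [Nat.add_sub_cancel] at hlt h5
      rw [hW1c] at hlt
      have h8 : p * q' + 1 < 2 * p * (q' + 1) := by nlinarith
      omega
    obtain ⟨y, hy⟩ := hpig
    refine ⟨v', W1.filter (fun w => Φ w = y), ?_, hy, ?_, ?_, ?_, ?_, ?_⟩
    · exact ((filter_subset _ _).trans (erase_subset _ _)).trans hWV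
    · intro i hi
      rcases Nat.lt_succ_iff_lt_or_eq.1 hi with h | h
      · rw [hv'lt i h]; exact hvV i h
      · rw [h, hv't]; exact hWV hw0W
    · intro i j hij hj
      rcases Nat.lt_succ_iff_lt_or_eq.1 hj with h | h
      · rw [hv'lt i (hij.trans h), hv'lt j h]; exact hvm i j hij h
      · rw [h, hv't, hv'lt i (h ▸ hij)]; exact hvW i (h ▸ hij) w0 hw0W
    · intro i hi w hw
      have hw1 := (mem_filter.1 hw).1
      rcases Nat.lt_succ_iff_lt_or_eq.1 hi with h | h
      · rw [hv'lt i h]; exact hvW i h w (mem_of_mem_erase hw1)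
      · rw [h, hv't]; exact hW1lt w hw1
    · intro i hi w hw w' hw'
      by_cases hlast : ∃ a, i a = t
      · let ι : Idx := ⟨fun a => ⟨i a, hi a⟩, by
          obtain ⟨a, ha⟩ := hlast
          exact ⟨a, Fin.ext ha⟩⟩
        have e1 := congrFun (mem_filter.1 hw).2 ι
        have e2 := congrFun (mem_filter.1 hw').2 ι
        exact e1.trans e2.symm
      · push Not at hlast
        have hi' : ∀ a, i a < t := fun a => lt_of_le_of_ne (Nat.lt_succ_iff.1 (hi a)) (hlast a)
        have e : (fun a => v' (i a)) = fun a => v (i a) := by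
          funext a
          exact hv'lt _ (hi' a)
        rw [e]
        exact h1 i hi' w (mem_of_mem_erase (mem_filter.1 hw).1) w'
          (mem_of_mem_erase (mem_filter.1 hw').1)
    · intro i j hj hij w hw
      have hwW : w ∈ W := mem_of_mem_erase (mem_filter.1 hw).1
      rcases Nat.lt_succ_iff_lt_or_eq.1 hj with h | h
      · have e : (fun a => v' (i a)) = fun a => v (i a) := by
          funext a
          exact hv'lt _ ((hij a).trans h)
        rw [e, hv'lt j h]
        exact h2 i j h hij w hwW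
      · rw [h] at hij ⊢
        have e : (fun a => v' (i a)) = fun a => v (i a) := by
          funext a
          exact hv'lt _ (hij a)
        rw [e, hv't]
        exact h1 i hij w0 hw0W w hwW

end Pool.Agent.TH138.NF
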