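import Mathlib

/-!
# Highest differing digits, monotone halves, random matrices

These lemmas are copied, for convenience, from the files `Pool/Agent/H526R2/Delta/Main.lean`
(highest differing digit), `Pool/Agent/H267R3/PR/Lower.lean` (monotone halves) of the starting
repository and from `Pool/Agent/TH470` (helper470: stretches, random matrices).
-/

set_option autoImplicit false

namespace Pool.Agent.TH138.NF

open Finset

/-- The position of the highest binary digit in which `x` and `y` differ. -/
def hd (x y : ℕ) : ℕ := Nat.findGreatest (fun i => x / 2 ^ i ≠ y / 2 ^ i) (max x y)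

theorem hd_spec {x y : ℕ} (h : x < y) (i : ℕ) : i ≤ hd x y ↔ x / 2 ^ i ≠ y / 2 ^ i := by
  have h0 : x / 2 ^ 0 ≠ y / 2 ^ 0 := by simpa using h.ne
  have hg : x / 2 ^ (hd x y) ≠ y / 2 ^ (hd x y) :=
    Nat.findGreatest_spec (P := fun i => x / 2 ^ i ≠ y / 2 ^ i) (Nat.zero_le (max x y)) h0
  constructor
  · intro hi heq
    apply hg
    obtain ⟨k, hk⟩ := Nat.exists_eq_add_of_le hi
    rw [hk, pow_add, ← Nat.div_div_eq_div_mul, ← Nat.div_div_eq_div_mul, heq]
  · intro hne
    refine Nat.le_findGreatest (P := fun i => x / 2 ^ i ≠ y / 2 ^ i) ?_ hne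
    by_contra hlt
    push Not at hlt
    apply hne
    have e : ∀ a, a ≤ max x y → a / 2 ^ i = 0 := by
      intro a ha
      apply Nat.div_eq_of_lt
      exact lt_of_le_of_lt ha (hlt.trans Nat.lt_two_pow_self)
    rw [e x (le_max_left _ _), e y (le_max_right _ _)]

theorem hd_delta {x y z : ℕ} (hxy : x < y) (hyz : y < z) :
    hd x y ≠ hd y z ∧ hd x z = max (hd x y) (hd y z) := by
  have h1 := hd_spec hxy
  have h2 := hd_spec hyz
  have h3 := hd_spec (hxy.trans hyz)
  have key : ∀ i, i ≤ hd x z ↔ (i ≤ hd x y ∨ i ≤ hd y z) := by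
    intro i
    rw [h1, h2, h3]
    have e1 : x / 2 ^ i ≤ y / 2 ^ i := Nat.div_le_div_right hxy.le
    have e2 : y / 2 ^ i ≤ z / 2 ^ i := Nat.div_le_div_right hyz.le
    omega
  constructor
  · intro heq
    set i := hd x y with hi
    have a1 : x / 2 ^ i ≠ y / 2 ^ i := (h1 i).1 le_rfl
    have a2 : y / 2 ^ i ≠ z / 2 ^ i := (h2 i).1 (by rw [heq])
    have a3 : x / 2 ^ (i + 1) = y / 2 ^ (i + 1) := by
      by_contra h
      have := (h1 (i + 1)).2 h
      omega
    have a4 : y / 2 ^ (i + 1) = z / 2 ^ (i + 1) := by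
      by_contra h
      have := (h2 (i + 1)).2 h
      omega
    have e1 : x / 2 ^ i ≤ y / 2 ^ i := Nat.div_le_div_right hxy.le
    have e2 : y / 2 ^ i ≤ z / 2 ^ i := Nat.div_le_div_right hyz.le
    rw [pow_succ, ← Nat.div_div_eq_div_mul, ← Nat.div_div_eq_div_mul] at a3 a4
    omega
  · apply le_antisymm
    · have := (key (hd x z)).1 le_rfl
      omega
    · exact max_le ((key _).2 (Or.inl le_rfl)) ((key _).2 (Or.inr le_rfl))

theorem hd_lt {m x y : ℕ} (hxy : x < y) (hy : y < 2 ^ m) : hd x y < m := by
  by_contra h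
  push Not at h
  have := (hd_spec hxy m).1 h
  apply this
  rw [Nat.div_eq_of_lt hy, Nat.div_eq_of_lt (hxy.trans hy)]

theorem hd_ne {x y z : ℕ} (h1 : x < y) (h2 : y < z) : hd x y ≠ hd y z := (hd_delta h1 h2).1

theorem hd_max {x y z : ℕ} (h1 : x < y) (h2 : y < z) : hd x z = max (hd x y) (hd y z) :=
  (hd_delta h1 h2).2

/-- increasing stretch -/
theorem hd_inc (y : ℕ → ℕ) (K : ℕ) (hy : ∀ i, i < K → y i < y (i + 1))
    (he : ∀ i, i + 1 < K → hd (y i) (y (i + 1)) < hd (y (i + 1)) (y (i + 2))) (i : ℕ) :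
    ∀ k, i < k → k ≤ K → y i < y k ∧ hd (y i) (y k) = hd (y (k - 1)) (y k) := by
  intro k
  induction k with
  | zero => intro h; omega
  | succ k ih =>
    intro h1 h2
    rcases Nat.lt_or_ge i k with h3 | h3
    · obtain ⟨h4, h5⟩ := ih h3 (by omega)
      have h6 := hy k (by omega)
      refine ⟨h4.trans h6, ?_⟩
      rw [hd_max h4 h6, h5]
      have h7 := he (k - 1) (by omega)
      rw [show k - 1 + 1 = k by omega, show k - 1 + 2 = k + 1 by omega] at h7
      rw [show k + 1 - 1 = k by omega]
      omega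
    · have h4 : i = k := by omega
      subst h4
      exact ⟨hy i (by omega), by rw [show i + 1 - 1 = i by omega]⟩

/-- decreasing stretch -/
theorem hd_dec (y : ℕ → ℕ) (K : ℕ) (hy : ∀ i, i < K → y i < y (i + 1))
    (he : ∀ i, i + 1 < K → hd (y (i + 1)) (y (i + 2)) < hd (y i) (y (i + 1))) (i : ℕ) :
    ∀ k, i < k → k ≤ K → y i < y k ∧ hd (y i) (y k) = hd (y i) (y (i + 1)) ∧
      hd (y (k - 1)) (y k) ≤ hd (y i) (y (i + 1)) := by
  intro k
  induction k with
  | zero => intro h; omega
  | succ k ih =>
    intro h1 h2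
    rcases Nat.lt_or_ge i k with h3 | h3
    · obtain ⟨h4, h5, h8⟩ := ih h3 (by omega)
      have h6 := hy k (by omega)
      refine ⟨h4.trans h6, ?_⟩
      have h7 := he (k - 1) (by omega)
      rw [show k - 1 + 1 = k by omega, show k - 1 + 2 = k + 1 by omega] at h7
      rw [hd_max h4 h6, h5, show k + 1 - 1 = k by omega]
      omega
    · have h4 : i = k := by omega
      subst h4
      exact ⟨hy i (by omega), rfl, by rw [show i + 1 - 1 = i by omega]⟩

theorem e_mono (e : ℕ → ℕ) (K : ℕ) (he : ∀ i, i + 1 < K → e i < e (i + 1)) (i : ℕ) :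
    ∀ k, i < k → k < K → e i < e k := by
  intro k
  induction k with
  | zero => intro h; omega
  | succ k ih =>
    intro h1 h2
    have h3 := he k h2
    rcases Nat.lt_or_ge i k with h4 | h4
    · exact (ih h4 (by omega)).trans h3
    · have : i = k := by omega
      subst this
      exact h3

theorem e_anti (e : ℕ → ℕ) (K : ℕ) (he : ∀ i, i + 1 < K → e (i + 1) < e i) (i : ℕ) :
    ∀ k, i < k → k < K → e k < e i := by
  intro k
  induction k with
  | zero => intro h; omega
  | succ k ih =>
    intro h1 h2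
    have h3 := he k h2
    rcases Nat.lt_or_ge i k with h4 | h4
    · exact h3.trans (ih h4 (by omega))
    · have : i = k := by omega
      subst this
      exact h3

/-- A sequence without local minimum (in the sense of `P = false`) or without local maximum
(`P = true`) of length `2 R + 1` has a monotone half. -/
theorem monotone_half (D : ℕ → ℕ) (R : ℕ) (hR : 1 ≤ R)
    (hne : ∀ i, i < 2 * R → D i ≠ D (i + 1)) (P : Bool)
    (hmin : P = false → ∀ i, i + 2 ≤ 2 * R → ¬ (D (i + 1) < D i ∧ D (i + 1) < D (i + 2)))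
    (hmax : P = true → ∀ i, i + 2 ≤ 2 * R → ¬ (D i < D (i + 1) ∧ D (i + 2) < D (i + 1))) :
    ∃ i0, i0 ≤ R ∧ ((∀ i, i < R → D (i0 + i) < D (i0 + i + 1)) ∨
      (∀ i, i < R → D (i0 + i + 1) < D (i0 + i))) := by
  cases P with
  | false =>
    have hm := hmin rfl
    rcases Nat.lt_or_gt_of_ne (hne R (by omega)) with h | h
    · refine ⟨0, Nat.zero_le _, Or.inl ?_⟩
      have key : ∀ k, k ≤ R → D (R - k) < D (R - k + 1) := by
        intro k
        induction k with
        | zero => intro _; exact h
        | succ k ih =>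
          intro hk
          have h1 := ih (by omega)
          have h2 : R - (k + 1) + 1 = R - k := by omega
          have h3 : R - (k + 1) + 2 = R - k + 1 := by omega
          have h4 := hm (R - (k + 1)) (by omega)
          have h5 := hne (R - (k + 1)) (by omega)
          rw [h2] at h5 h4 ⊢
          rw [h3] at h4
          omega
      intro i hi
      have := key (R - i) (by omega)
      have e : R - (R - i) = 0 + i := by omega
      rw [e] at this
      exact this
    · refine ⟨R, le_rfl, Or.inr ?_⟩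
      intro i
      induction i with
      | zero => intro _; exact h
      | succ i ih =>
        intro hi
        have h1 := ih (by omega)
        have h4 := hm (R + i) (by omega)
        have h5 := hne (R + i + 1) (by omega)
        have e1 : R + (i + 1) = R + i + 1 := by omega
        rw [e1]
        have e2 : R + i + 1 + 1 = R + i + 2 := by omega
        rw [e2] at h5 ⊢
        omega
  | true =>
    have hm := hmax rfl
    rcases Nat.lt_or_gt_of_ne (hne R (by omega)) with h | h
    · refine ⟨R, le_rfl, Or.inl ?_⟩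
      intro i
      induction i with
      | zero => intro _; exact h
      | succ i ih =>
        intro hi
        have h1 := ih (by omega)
        have h4 := hm (R + i) (by omega)
        have h5 := hne (R + i + 1) (by omega)
        have e1 : R + (i + 1) = R + i + 1 := by omega
        rw [e1]
        have e2 : R + i + 1 + 1 = R + i + 2 := by omega
        rw [e2] at h5 ⊢
        omega
    · refine ⟨0, Nat.zero_le _, Or.inr ?_⟩
      have key : ∀ k, k ≤ R → D (R - k + 1) < D (R - k) := by
        intro k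
        induction k with
        | zero => intro _; exact h
        | succ k ih =>
          intro hk
          have h1 := ih (by omega)
          have h2 : R - (k + 1) + 1 = R - k := by omega
          have h3 : R - (k + 1) + 2 = R - k + 1 := by omega
          have h4 := hm (R - (k + 1)) (by omega)
          have h5 := hne (R - (k + 1)) (by omega)
          rw [h2] at h5 h4 ⊢
          rw [h3] at h4
          omega
      intro i hi
      have := key (R - i) (by omega)
      have e : R - (R - i) = 0 + i := by omega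
      rw [e] at this
      exact this

/-- matrices that are constant `c` on `A × B` -/
theorem card_const (m : ℕ) (A B : Finset (Fin m)) (c : Bool) :
    (univ.filter (fun χ : Fin m × Fin m → Bool => ∀ a ∈ A, ∀ b ∈ B, χ (a, b) = c)).card *
      2 ^ (A.card * B.card) = 2 ^ (m * m) := by
  classical
  have h1 : (univ.filter (fun χ : Fin m × Fin m → Bool => ∀ a ∈ A, ∀ b ∈ B, χ (a, b) = c)) =
      Fintype.piFinset (fun p : Fin m × Fin m => if p ∈ A ×ˢ B then {c} else univ) := by
    ext χ
    simp only [mem_filter, mem_univ, true_and, Fintype.mem_piFinset, mem_product]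
    constructor
    · intro h p
      split_ifs with hp
      · rw [mem_singleton]
        exact h p.1 hp.1 p.2 hp.2
      · exact mem_univ _
    · intro h a ha b hb
      have := h (a, b)
      rw [if_pos ⟨ha, hb⟩, mem_singleton] at this
      exact this
  rw [h1, Fintype.card_piFinset]
  have h2 : ∀ p : Fin m × Fin m, (if p ∈ A ×ˢ B then ({c} : Finset Bool) else univ).card =
      if p ∈ A ×ˢ B then 1 else 2 := by
    intro p
    split_ifs
    · simp
    · simp
  simp_rw [h2]
  rw [Finset.prod_ite, prod_const_one, one_mul, prod_const, ← pow_add]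
  congr 1
  have h3 : (univ.filter (fun p : Fin m × Fin m => p ∈ A ×ˢ B)).card = A.card * B.card := by
    rw [filter_mem_eq_inter, univ_inter, card_product]
  rw [← h3, add_comm, card_filter_add_card_filter_not]
  simp

theorem exists_matrix (m h : ℕ) (hm : 2 * m ^ (2 * h) < 2 ^ (h * h)) :
    ∃ χ : Fin m × Fin m → Bool, ∀ A B : Finset (Fin m), A.card = h → B.card = h → ∀ c : Bool,
      ∃ a ∈ A, ∃ b ∈ B, χ (a, b) ≠ c := by
  classical
  by_contra hcon
  push Not at hcon
  set P := (powersetCard h (univ : Finset (Fin m)) ×ˢ powersetCard h (univ : Finset (Fin m))) ×ˢ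
    (univ : Finset Bool) with hP
  have hcov : (univ : Finset (Fin m × Fin m → Bool)) ⊆ P.biUnion (fun p =>
      univ.filter (fun χ : Fin m × Fin m → Bool => ∀ a ∈ p.1.1, ∀ b ∈ p.1.2, χ (a, b) = p.2)) := by
    intro χ _
    obtain ⟨A, B, hA, hB, c, hc⟩ := hcon χ
    rw [mem_biUnion]
    refine ⟨((A, B), c), ?_, ?_⟩
    · simp [hP, mem_powersetCard, hA, hB]
    · simp only [mem_filter, mem_univ, true_and]
      exact hc
  have h1 := (card_le_card hcov).trans card_biUnion_le
  have hcard : (univ : Finset (Fin m × Fin m → Bool)).card = 2 ^ (m * m) := by simp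
  rw [hcard] at h1
  have h2 : (∑ p ∈ P, (univ.filter (fun χ : Fin m × Fin m → Bool =>
      ∀ a ∈ p.1.1, ∀ b ∈ p.1.2, χ (a, b) = p.2)).card) * 2 ^ (h * h) = P.card * 2 ^ (m * m) := by
    rw [sum_mul, sum_congr rfl (g := fun _ => 2 ^ (m * m)), sum_const, smul_eq_mul]
    intro p hp
    simp only [hP, mem_product, mem_powersetCard, mem_univ, and_true] at hp
    have := card_const m p.1.1 p.1.2 p.2
    rw [hp.1.2, hp.2.2] at this
    exact this
  have h3 : P.card ≤ 2 * m ^ (2 * h) := by
    rw [hP, card_product, card_product, card_powersetCard]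
    simp only [card_univ, Fintype.card_fin, Fintype.card_bool]
    have := Nat.choose_le_pow m h
    calc m.choose h * m.choose h * 2 ≤ m ^ h * m ^ h * 2 := by gcongr
      _ = 2 * m ^ (2 * h) := by ring
  have h4 : 2 ^ (m * m) * 2 ^ (h * h) ≤ P.card * 2 ^ (m * m) := by
    rw [← h2]
    exact Nat.mul_le_mul_right _ h1
  have h5 : P.card * 2 ^ (m * m) < 2 ^ (h * h) * 2 ^ (m * m) :=
    Nat.mul_lt_mul_of_pos_right (h3.trans_lt hm) (by positivity)
  rw [mul_comm (2 ^ (m * m)) (2 ^ (h * h))] at h4
  exact absurd (h4.trans_lt h5) (lt_irrefl _)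

theorem exists_matrix' (j : ℕ) :
    ∃ χ : Fin (2 ^ j) × Fin (2 ^ j) → Bool, ∀ A B : Finset (Fin (2 ^ j)),
      A.card = 2 * j + 2 → B.card = 2 * j + 2 → ∀ c : Bool,
      ∃ a ∈ A, ∃ b ∈ B, χ (a, b) ≠ c := by
  apply exists_matrix
  rw [← pow_mul, ← pow_succ']
  apply Nat.pow_lt_pow_right (by norm_num)
  nlinarith

/-- The same on natural numbers. -/
theorem exists_chi (j : ℕ) :
    ∃ χ : ℕ → ℕ → Bool, ∀ A B : Finset ℕ, (∀ a ∈ A, a < 2 ^ j) → (∀ b ∈ B, b < 2 ^ j) →
      A.card = 2 * j + 2 → B.card = 2 * j + 2 → ∀ c : Bool,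
      ∃ a ∈ A, ∃ b ∈ B, χ a b ≠ c := by
  classical
  obtain ⟨χ, hχ⟩ := exists_matrix' j
  have hpos : 0 < 2 ^ j := by positivity
  refine ⟨fun a b => χ (⟨a % 2 ^ j, Nat.mod_lt _ hpos⟩, ⟨b % 2 ^ j, Nat.mod_lt _ hpos⟩), ?_⟩
  intro A B hA hB hAc hBc c
  have key : ∀ X : Finset ℕ, (∀ a ∈ X, a < 2 ^ j) →
      (X.image (fun a => (⟨a % 2 ^ j, Nat.mod_lt _ hpos⟩ : Fin (2 ^ j)))).card = X.card := by
    intro X hX
    apply card_image_of_injOn
    intro a ha b hb hab
    simp only [Fin.mk.injEq] at hab
    rwa [Nat.mod_eq_of_lt (hX a ha), Nat.mod_eq_of_lt (hX b hb)] at hab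
  obtain ⟨a, ha, b, hb, hne⟩ := hχ _ _ ((key A hA).trans hAc) ((key B hB).trans hBc) c
  rw [mem_image] at ha hb
  obtain ⟨a', ha', rfl⟩ := ha
  obtain ⟨b', hb', rfl⟩ := hb
  exact ⟨a', ha', b', hb', hne⟩

end Pool.Agent.TH138.NF
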