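import Pool.Agent.TH138.NF.Step

/-!
# The stepped-up colouring has no large homogeneous sets
-/

set_option autoImplicit false

namespace Pool.Agent.TH138.NF

open Finset

/-- an increasing enumeration -/
theorem enum (S : Finset ℕ) : ∃ x : ℕ → ℕ, (∀ i < S.card, x i ∈ S) ∧
    ∀ i j, i < j → j < S.card → x i < x j := by
  classical
  refine ⟨fun i => if h : i < S.card then S.orderEmbOfFin rfl ⟨i, h⟩ else 0, ?_, ?_⟩
  · intro i hi
    simp only [dif_pos hi]
    exact S.orderEmbOfFin_mem rfl _
  · intro i j hij hj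
    simp only [dif_pos hj, dif_pos (hij.trans hj)]
    exact (S.orderEmbOfFin rfl).strictMono (by simpa using hij)

theorem hom_of_stretch {t : ℕ} (P : Protocol (Bool × Bool) (t + 2)) (S : Finset ℕ)
    (hS : Hom P.step S) (y : ℕ → ℕ) (K : ℕ) (hyS : ∀ i ≤ K, y i ∈ S)
    (hy : ∀ i, i < K → y i < y (i + 1))
    (he : (∀ i, i + 1 < K → hd (y i) (y (i + 1)) < hd (y (i + 1)) (y (i + 2))) ∨
      (∀ i, i + 1 < K → hd (y (i + 1)) (y (i + 2)) < hd (y i) (y (i + 1)))) :
    Hom P ((range K).image (fun i => hd (y i) (y (i + 1)))) ∧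
      ((range K).image (fun i => hd (y i) (y (i + 1)))).card = K := by
  classical
  rcases he with he | he
  · have hm : ∀ i k, i < k → k < K → hd (y i) (y (i + 1)) < hd (y k) (y (k + 1)) :=
      e_mono (fun i => hd (y i) (y (i + 1))) K he
    have key : ∀ z : Fin (t + 3) → ℕ, StrictMono z →
        (∀ l, z l ∈ (range K).image (fun i => hd (y i) (y (i + 1)))) →
        ∃ x : Fin (t + 4) → ℕ, StrictMono x ∧ (∀ l, x l ∈ S) ∧ P.step.run x = P.run z := by
      intro z hz hzE
      have hch : ∀ l, ∃ i < K, hd (y i) (y (i + 1)) = z l := fun l => by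
        simpa using mem_image.1 (hzE l)
      choose idx hidx hz' using hch
      have him : StrictMono idx := by
        intro a a' haa'
        by_contra hle
        push Not at hle
        have h3 := hz haa'
        rw [← hz' a, ← hz' a'] at h3
        rcases Nat.lt_or_eq_of_le hle with h | h
        · exact absurd (hm _ _ h (hidx a)) (not_lt.2 h3.le)
        · rw [h] at h3; exact lt_irrefl _ h3
      obtain ⟨x, hx, hxS, hDx⟩ := real_inc y K hy he idx him hidx
      have hDz : D x = z := by
        rw [hDx]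
        funext l
        exact hz' l
      refine ⟨x, hx, fun l => ?_, ?_⟩
      · obtain ⟨i, hi, e⟩ := hxS l
        rw [e]
        exact hyS i hi
      · rw [run_inc P x hx (by rw [hDz]; exact hz), hDz]
    refine ⟨fun z z' hz hz' hzE hzE' => ?_, ?_⟩
    · obtain ⟨x, h1, h2, h3⟩ := key z hz hzE
      obtain ⟨x', h1', h2', h3'⟩ := key z' hz' hzE'
      rw [← h3, ← h3']
      exact hS x x' h1 h1' h2 h2'
    · rw [card_image_of_injOn, card_range]
      intro i hi k hk hik
      rw [coe_range, Set.mem_Iio] at hi hk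
      simp only at hik
      rcases lt_trichotomy i k with h | h | h
      · exact absurd hik (hm i k h hk).ne
      · exact h
      · exact absurd hik (hm k i h hi).ne'
  · have hm : ∀ i k, i < k → k < K → hd (y k) (y (k + 1)) < hd (y i) (y (i + 1)) :=
      e_anti (fun i => hd (y i) (y (i + 1))) K he
    have key : ∀ z : Fin (t + 3) → ℕ, StrictMono z →
        (∀ l, z l ∈ (range K).image (fun i => hd (y i) (y (i + 1)))) →
        ∃ x : Fin (t + 4) → ℕ, StrictMono x ∧ (∀ l, x l ∈ S) ∧ P.step.run x = P.run z := by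
      intro z hz hzE
      have hch : ∀ l, ∃ i < K, hd (y i) (y (i + 1)) = z l := fun l => by
        simpa using mem_image.1 (hzE l)
      choose idx hidx hz' using hch
      have him : StrictMono (fun l : Fin (t + 3) => idx l.rev) := by
        intro a a' haa'
        by_contra hle
        push Not at hle
        have h3 := hz (Fin.rev_lt_rev.2 haa')
        rw [← hz' a.rev, ← hz' a'.rev] at h3
        rcases Nat.lt_or_eq_of_le hle with h | h
        · exact absurd (hm _ _ h (hidx a.rev)) (not_lt.2 h3.le)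
        · rw [h] at h3; exact lt_irrefl _ h3
      obtain ⟨x, hx, hxS, hDx⟩ := real_dec y K hy he (fun l => idx l.rev) him
        (fun l => hidx l.rev)
      have hDz : D x = fun l => z l.rev := by
        rw [hDx]
        funext l
        exact hz' l.rev
      refine ⟨x, hx, fun l => ?_, ?_⟩
      · obtain ⟨i, hi, e⟩ := hxS l
        rw [e]
        exact hyS i hi
      · rw [run_dec P x hx (by
          rw [hDz]
          intro a b hab
          exact hz (Fin.rev_lt_rev.2 hab)), hDz]
        simp only [Fin.rev_rev]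
    refine ⟨fun z z' hz hz' hzE hzE' => ?_, ?_⟩
    · obtain ⟨x, h1, h2, h3⟩ := key z hz hzE
      obtain ⟨x', h1', h2', h3'⟩ := key z' hz' hzE'
      rw [← h3, ← h3']
      exact hS x x' h1 h1' h2 h2'
    · rw [card_image_of_injOn, card_range]
      intro i hi k hk hik
      rw [coe_range, Set.mem_Iio] at hi hk
      simp only at hik
      rcases lt_trichotomy i k with h | h | h
      · exact absurd hik (hm i k h hk).ne'
      · exact h
      · exact absurd hik (hm k i h hi).ne

/-- **Stepping up.** -/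
theorem step_lower {t : ℕ} (P : Protocol (Bool × Bool) (t + 2)) (M n : ℕ) (hn : 2 ≤ n)
    (hP : ∀ S ⊆ range M, S.card = n → ¬ Hom P S) :
    ∀ S ⊆ range (2 ^ M), S.card = 2 * n + t → ¬ Hom P.step S := by
  classical
  intro S hS hc hhom
  obtain ⟨x, hxS, hxm⟩ := enum S
  rw [hc] at hxS hxm
  obtain ⟨R, rfl⟩ : ∃ R, n = R + 1 := ⟨n - 1, by omega⟩
  have hR : 1 ≤ R := by omega
  set e : ℕ → ℕ := fun i => hd (x i) (x (i + 1)) with he
  have hne : ∀ i, i < 2 * R → e i ≠ e (i + 1) := fun i hi =>
    hd_ne (hxm i (i + 1) (by omega) (by omega)) (hxm (i + 1) (i + 1 + 1) (by omega) (by omega))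
  -- windows
  have hwin : ∀ i, i + 2 ≤ 2 * R → ∃ w : Fin (t + 4) → ℕ, StrictMono w ∧ (∀ l, w l ∈ S) ∧
      D w 0 = e i ∧ D w 1 = e (i + 1) ∧ D w 2 = e (i + 2) := by
    intro i hi
    refine ⟨fun l => x (i + l.val), fun a b hab => ?_, fun l => hxS _ (by omega), ?_, ?_, ?_⟩
    · exact hxm _ _ (by have := Fin.lt_def.1 hab; omega) (by omega)
    · rfl
    · rfl
    · rfl
  obtain ⟨flag, hflag⟩ : ∃ flag : Bool,
      (flag = false → ∀ i, i + 2 ≤ 2 * R → ¬ (e (i + 1) < e i ∧ e (i + 1) < e (i + 2))) ∧
      (flag = true → ∀ i, i + 2 ≤ 2 * R → ¬ (e i < e (i + 1) ∧ e (i + 2) < e (i + 1))) := by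
    by_cases hmax : ∃ i, i + 2 ≤ 2 * R ∧ (e i < e (i + 1) ∧ e (i + 2) < e (i + 1))
    · refine ⟨false, fun _ i hi hmin => ?_, fun h => by simp at h⟩
      obtain ⟨i', hi', h1, h2⟩ := hmax
      obtain ⟨w, hw1, hw2, a0, a1, a2⟩ := hwin i hi
      obtain ⟨w', hw1', hw2', b0, b1, b2⟩ := hwin i' hi'
      have e1 := run_min P w (by rw [a0, a1]; exact hmin.1) (by rw [a1, a2]; exact hmin.2)
      have e2 := run_max P w' (by rw [b0, b1]; exact h1) (by rw [b1, b2]; exact h2)
      have e3 := hhom w w' hw1 hw1' hw2 hw2'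
      rw [e1, e2] at e3
      simp at e3
    · push Not at hmax
      refine ⟨true, fun h => by simp at h, fun _ i hi h => ?_⟩
      have := hmax i hi h.1
      omega
  obtain ⟨i0, hi0, hmon⟩ := monotone_half e R hR hne flag hflag.1 hflag.2
  have hK : (∀ i, i + 1 < R + 1 → hd (x (i0 + i)) (x (i0 + (i + 1))) <
        hd (x (i0 + (i + 1))) (x (i0 + (i + 2)))) ∨
      (∀ i, i + 1 < R + 1 → hd (x (i0 + (i + 1))) (x (i0 + (i + 2))) <
        hd (x (i0 + i)) (x (i0 + (i + 1)))) := by
    rcases hmon with h | h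
    · exact Or.inl (fun i hi => h i (by omega))
    · exact Or.inr (fun i hi => h i (by omega))
  obtain ⟨h1, h2⟩ := hom_of_stretch P S hhom (fun i => x (i0 + i)) (R + 1)
    (fun i hi => hxS _ (by omega)) (fun i hi => hxm _ _ (by omega) (by omega)) hK
  refine hP _ ?_ h2 h1
  intro u hu
  obtain ⟨i, hi, rfl⟩ := mem_image.1 hu
  rw [mem_range] at hi ⊢
  exact hd_lt (hxm _ _ (by omega) (by omega)) (mem_range.1 (hS (hxS _ (by omega))))

/-- player `j` announces the `t` lowest binary digits of `g y` -/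
def askBits {κ : Type} {r : ℕ} (j : Fin (r + 1)) (g : (Fin r → ℕ) → ℕ) :
    ℕ → (ℕ → Protocol κ r) → Protocol κ r
  | 0, K => K 0
  | t + 1, K => .ask j (fun y => (g y).testBit t) (askBits j g t K)
      (askBits j g t (fun a => K (2 ^ t + a)))

theorem run_askBits {κ : Type} {r : ℕ} (j : Fin (r + 1)) (g : (Fin r → ℕ) → ℕ)
    (x : Fin (r + 1) → ℕ) : ∀ (t : ℕ) (K : ℕ → Protocol κ r),
    (askBits j g t K).run x = (K (g (j.removeNth x) % 2 ^ t)).run x := by
  intro t
  induction t with
  | zero => intro K; simp [askBits, Nat.mod_one]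
  | succ t ih =>
    intro K
    simp only [askBits, Protocol.run]
    have hmod : g (j.removeNth x) % 2 ^ (t + 1) =
        (if (g (j.removeNth x)).testBit t = true then 2 ^ t else 0) +
          g (j.removeNth x) % 2 ^ t := by
      rw [Nat.mod_pow_succ, Nat.testBit_eq_decide_div_mod_eq]
      rcases Nat.mod_two_eq_zero_or_one (g (j.removeNth x) / 2 ^ t) with h | h <;>
        simp [h, add_comm]
    rw [ih, ih, hmod]
    split_ifs with h
    · rfl
    · simp

theorem bits_askBits {κ : Type} {r : ℕ} (j : Fin (r + 1)) (g : (Fin r → ℕ) → ℕ) (b : ℕ) :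
    ∀ (t : ℕ) (K : ℕ → Protocol κ r), (∀ a, (K a).bits ≤ b) →
      (askBits j g t K).bits ≤ t + b := by
  intro t
  induction t with
  | zero => intro K hK; simpa [askBits] using hK 0
  | succ t ih =>
    intro K hK
    simp only [askBits, Protocol.bits]
    have h1 := ih K hK
    have h2 := ih (fun a => K (2 ^ t + a)) (fun a => hK _)
    omega

/-- what player `0` announces in the base case -/
def fin0 (χ : ℕ → ℕ → Bool) (a : ℕ) : Protocol (Bool × Bool) 2 :=
  .ask 0 (fun y => χ (min a (D y 0)) (max a (D y 0)))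
    (.ask 0 (fun y => decide (a < D y 0)) (.out (false, false)) (.out (false, true)))
    (.ask 0 (fun y => decide (a < D y 0)) (.out (true, false)) (.out (true, true)))

/-- the base case -/
def base (χ : ℕ → ℕ → Bool) (j : ℕ) : Protocol (Bool × Bool) 2 :=
  askBits (Fin.last 2) (fun y => D y 0) j (fin0 χ)

theorem bits_base (χ : ℕ → ℕ → Bool) (j : ℕ) : (base χ j).bits ≤ j + 2 :=
  bits_askBits _ _ 2 j _ (fun a => by simp [fin0, Protocol.bits])

theorem run_base (χ : ℕ → ℕ → Bool) (j : ℕ) (x : Fin 3 → ℕ) (hx : StrictMono x)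
    (hx2 : ∀ i, x i < 2 ^ 2 ^ j) : (base χ j).run x =
      (χ (min (D x 0) (D x 1)) (max (D x 0) (D x 1)), decide (D x 0 < D x 1)) := by
  rw [base, run_askBits]
  have h0 : D ((Fin.last 2).removeNth x) 0 = D x 0 := by rw [D_init]; rfl
  have h1 : D ((0 : Fin 3).removeNth x) 0 = D x 1 := by rw [D_tail]; rfl
  have h2 : D x 0 < 2 ^ j := hd_lt (hx (Fin.castSucc_lt_succ)) (hx2 _)
  rw [h0, Nat.mod_eq_of_lt h2]
  simp only [fin0, Protocol.run, h1]
  split_ifs with h3 h4 h4 <;> simp_all

theorem base_lower (j : ℕ) : ∃ χ : ℕ → ℕ → Bool, ∀ S ⊆ range (2 ^ 2 ^ j), S.card = 4 * j + 5 →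
    ¬ Hom (base χ j) S := by
  classical
  obtain ⟨χ, hχ⟩ := exists_chi j
  refine ⟨χ, fun S hS hc hhom => ?_⟩
  obtain ⟨x, hxS, hxm⟩ := enum S
  rw [hc] at hxS hxm
  set K := 4 * j + 4 with hK
  have hxr : ∀ i, i < 4 * j + 5 → x i < 2 ^ 2 ^ j := fun i hi => mem_range.1 (hS (hxS i hi))
  set e : ℕ → ℕ := fun i => hd (x i) (x (i + 1)) with he
  -- triples
  have htri : ∀ a b c, a < b → b < c → c ≤ K → (base χ j).run ![x a, x b, x c] =
      (χ (min (hd (x a) (x b)) (hd (x b) (x c))) (max (hd (x a) (x b)) (hd (x b) (x c))),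
        decide (hd (x a) (x b) < hd (x b) (x c))) ∧
      ∀ a' b' c', a' < b' → b' < c' → c' ≤ K →
        (base χ j).run ![x a, x b, x c] = (base χ j).run ![x a', x b', x c'] := by
    intro a b c hab hbc hcK
    have hsm : ∀ a b c, a < b → b < c → c ≤ K → StrictMono ![x a, x b, x c] := by
      intro a b c hab hbc hcK
      rw [Fin.strictMono_iff_lt_succ]
      intro l
      fin_cases l
      · exact hxm a b hab (by omega)
      · exact hxm b c hbc (by omega)
    have hmem : ∀ a b c, a < b → b < c → c ≤ K → ∀ l, ![x a, x b, x c] l ∈ S := by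
      intro a b c hab hbc hcK l
      fin_cases l
      · exact hxS a (by omega)
      · exact hxS b (by omega)
      · exact hxS c (by omega)
    constructor
    · rw [run_base χ j _ (hsm a b c hab hbc hcK)
        (fun l => mem_range.1 (hS (hmem a b c hab hbc hcK l)))]
      rfl
    · intro a' b' c' h1 h2 h3
      exact hhom _ _ (hsm a b c hab hbc hcK) (hsm a' b' c' h1 h2 h3) (hmem a b c hab hbc hcK)
        (hmem a' b' c' h1 h2 h3)
  have h012 := htri 0 1 2 (by omega) (by omega) (by omega)
  set u := (base χ j).run ![x 0, x 1, x 2] with hu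
  have hall : ∀ a b c, a < b → b < c → c ≤ K →
      χ (min (hd (x a) (x b)) (hd (x b) (x c))) (max (hd (x a) (x b)) (hd (x b) (x c))) = u.1 ∧
      decide (hd (x a) (x b) < hd (x b) (x c)) = u.2 := by
    intro a b c h1 h2 h3
    have e1 := (htri a b c h1 h2 h3).1
    have e2 := h012.2 a b c h1 h2 h3
    rw [e1] at e2
    rw [e2]
    exact ⟨rfl, rfl⟩
  have hy : ∀ i, i < K → x i < x (i + 1) := fun i hi => hxm i (i + 1) (by omega) (by omega)
  -- the set of digits
  have fin : ∀ E : Finset ℕ, E.card = K → (∀ a ∈ E, a < 2 ^ j) →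
      (∀ a ∈ E, ∀ b ∈ E, a < b → χ a b = u.1) → False := by
    intro E hE hElt hEc
    obtain ⟨y, hyE, hym⟩ := enum E
    rw [hE] at hyE hym
    have hinj : ∀ X : Finset ℕ, (∀ i ∈ X, i < K) → (X.image y).card = X.card := by
      intro X hX
      apply card_image_of_injOn
      intro a ha b hb hab
      rcases lt_trichotomy a b with h | h | h
      · exact absurd hab (hym a b h (hX b hb)).ne
      · exact h
      · exact absurd hab (hym b a h (hX a ha)).ne'
    obtain ⟨a, ha, b, hb, hne⟩ := hχ ((range (2 * j + 2)).image y)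
      ((Ico (2 * j + 2) (4 * j + 4)).image y)
      (by
        intro a ha
        obtain ⟨i, hi, rfl⟩ := mem_image.1 ha
        exact hElt _ (hyE i (by rw [mem_range] at hi; omega)))
      (by
        intro a ha
        obtain ⟨i, hi, rfl⟩ := mem_image.1 ha
        exact hElt _ (hyE i (by rw [mem_Ico] at hi; omega)))
      (by rw [hinj _ (fun i hi => by rw [mem_range] at hi; omega), card_range])
      (by rw [hinj _ (fun i hi => by rw [mem_Ico] at hi; omega), Nat.card_Ico]; omega) u.1
    obtain ⟨i, hi, rfl⟩ := mem_image.1 ha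
    obtain ⟨k, hk, rfl⟩ := mem_image.1 hb
    rw [mem_range] at hi
    rw [mem_Ico] at hk
    exact hne (hEc _ (hyE i (by omega)) _ (hyE k (by omega)) (hym i k (by omega) (by omega)))
  have hElt : ∀ a ∈ (range K).image e, a < 2 ^ j := by
    intro a ha
    obtain ⟨i, hi, rfl⟩ := mem_image.1 ha
    rw [mem_range] at hi
    exact hd_lt (hy i hi) (hxr _ (by omega))
  rcases hv : u.2 with _ | _
  · -- decreasing
    have hdec : ∀ i, i + 1 < K → hd (x (i + 1)) (x (i + 2)) < hd (x i) (x (i + 1)) := by
      intro i hi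
      have h1 := (hall i (i + 1) (i + 2) (by omega) (by omega) (by omega)).2
      rw [hv, decide_eq_false_iff_not, not_lt] at h1
      have h2 := hd_ne (hy i (by omega)) (hy (i + 1) hi)
      exact lt_of_le_of_ne h1 h2.symm
    have hm : ∀ i k, i < k → k < K → e k < e i := e_anti e K hdec
    refine fin ((range K).image e) ?_ hElt ?_
    · rw [card_image_of_injOn, card_range]
      intro i hi k hk hik
      rw [coe_range, Set.mem_Iio] at hi hk
      rcases lt_trichotomy i k with h | h | h
      · exact absurd hik (hm i k h hk).ne'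
      · exact h
      · exact absurd hik (hm k i h hi).ne
    · intro a ha b hb hab
      obtain ⟨i, hi, rfl⟩ := mem_image.1 ha
      obtain ⟨k, hk, rfl⟩ := mem_image.1 hb
      rw [mem_range] at hi hk
      have hki : k < i := by
        rcases lt_trichotomy i k with h | h | h
        · exact absurd (hm i k h hk) (not_lt.2 hab.le)
        · rw [h] at hab; exact absurd hab (lt_irrefl _)
        · exact h
      have h1 := (hall k i (i + 1) hki (by omega) (by omega)).1
      have h2 := (hd_dec x K hy hdec k i hki (by omega)).2.1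
      rw [h2] at h1
      rw [min_eq_right hab.le, max_eq_left hab.le] at h1
      exact h1
  · -- increasing
    have hinc : ∀ i, i + 1 < K → hd (x i) (x (i + 1)) < hd (x (i + 1)) (x (i + 2)) := by
      intro i hi
      have h1 := (hall i (i + 1) (i + 2) (by omega) (by omega) (by omega)).2
      rw [hv, decide_eq_true_eq] at h1
      exact h1
    have hm : ∀ i k, i < k → k < K → e i < e k := e_mono e K hinc
    refine fin ((range K).image e) ?_ hElt ?_
    · rw [card_image_of_injOn, card_range]
      intro i hi k hk hik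
      rw [coe_range, Set.mem_Iio] at hi hk
      rcases lt_trichotomy i k with h | h | h
      · exact absurd hik (hm i k h hk).ne
      · exact h
      · exact absurd hik (hm k i h hi).ne'
    · intro a ha b hb hab
      obtain ⟨i, hi, rfl⟩ := mem_image.1 ha
      obtain ⟨k, hk, rfl⟩ := mem_image.1 hb
      rw [mem_range] at hi hk
      have hik : i < k := by
        rcases lt_trichotomy i k with h | h | h
        · exact h
        · rw [h] at hab; exact absurd hab (lt_irrefl _)
        · exact absurd (hm k i h hi) (not_lt.2 hab.le)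
      have h1 := (hall i (i + 1) (k + 1) (by omega) (by omega) (by omega)).1
      have h2 := (hd_inc x K hy hinc (i + 1) (k + 1) (by omega) (by omega)).2
      rw [h2, show k + 1 - 1 = k by omega] at h1
      rw [min_eq_left hab.le, max_eq_right hab.le] at h1
      exact h1

/-- the number of vertices -/
def Mn (j : ℕ) : ℕ → ℕ
  | 0 => 2 ^ 2 ^ j
  | s + 1 => 2 ^ Mn j s

theorem Mn_tow (j s : ℕ) : (Mn j s : ℝ) = tow (s + 2) j := by
  induction s with
  | zero =>
    simp only [Mn, tow]
    rw [Real.rpow_natCast, show (2 : ℝ) ^ j = ((2 ^ j : ℕ) : ℝ) by push_cast; rfl,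
      Real.rpow_natCast]
    push_cast
    rfl
  | succ s ih =>
    change ((2 ^ Mn j s : ℕ) : ℝ) = 2 ^ tow (s + 2) j
    rw [← ih]
    push_cast
    rw [Real.rpow_natCast]

/-- **Colourings with tower growth.** -/
theorem lower (j : ℕ) : ∀ s : ℕ, ∃ P : Protocol (Bool × Bool) (s + 2), P.bits ≤ j + 4 * s + 2 ∧
    ∃ n, 2 ≤ n ∧ n ≤ 2 ^ s * (4 * j + s + 5) ∧
      ∀ S ⊆ range (Mn j s), S.card = n → ¬ Hom P S := by
  intro s
  induction s with
  | zero =>
    obtain ⟨χ, hχ⟩ := base_lower j
    exact ⟨base χ j, bits_base χ j, 4 * j + 5, by omega, by omega, hχ⟩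
  | succ s ih =>
    obtain ⟨P, hb, n, hn2, hn, hP⟩ := ih
    refine ⟨P.step, ?_, 2 * n + s, by omega, ?_, step_lower P (Mn j s) n hn2 hP⟩
    · have := bits_step P _ hb (by omega)
      omega
    · have h1 : s ≤ 2 ^ s := Nat.lt_two_pow_self.le
      calc 2 * n + s ≤ 2 * (2 ^ s * (4 * j + s + 5)) + 2 ^ s := by omega
        _ ≤ 2 ^ (s + 1) * (4 * j + (s + 1) + 5) := by
          rw [pow_succ]
          nlinarith

end Pool.Agent.TH138.NF
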