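import Pool.Agent.TH138.NF.Asym
import Pool.Agent.TH138.NF.Low

/-!
# The lower bound for colourings of finite sets
-/

set_option autoImplicit false

namespace Pool.Agent.TH138.NF

open Finset

variable {κ : Type}

open Classical in
/-- the colouring computed by a protocol -/
noncomputable def colour {r : ℕ} (P : Protocol κ r) (a : κ) (A : Finset ℕ) : κ :=
  if h : A.card = r + 1 then P.run (fun i => A.orderEmbOfFin h i) else a

theorem computes_colour {r : ℕ} (P : Protocol κ r) (a : κ) (N : ℕ) :
    Computes P N (colour P a) := by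
  intro x hx _
  have hcard : (univ.image x).card = r + 1 := by
    rw [card_image_of_injective _ hx.injective, card_univ, Fintype.card_fin]
  unfold colour
  rw [dif_pos hcard]
  congr 1
  exact orderEmbOfFin_unique hcard (fun i => mem_image_of_mem _ (mem_univ _)) hx

theorem hom_of_homogeneous {r : ℕ} {P : Protocol κ r} {N : ℕ} {c : Finset ℕ → κ}
    (hP : Computes P N c) {S : Finset ℕ} (hS : S ⊆ range N) (h : Homogeneous (r + 1) c S) :
    Hom P S := by
  intro x y hx hy hxS hyS
  rw [hP x hx (fun i => mem_range.1 (hS (hxS i))), hP y hy (fun i => mem_range.1 (hS (hyS i)))]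
  refine h _ ?_ _ ?_ ?_ ?_
  · intro u hu
    obtain ⟨i, _, rfl⟩ := mem_image.1 hu
    exact hxS i
  · intro u hu
    obtain ⟨i, _, rfl⟩ := mem_image.1 hu
    exact hyS i
  · rw [card_image_of_injective _ hx.injective, card_univ, Fintype.card_fin]
  · rw [card_image_of_injective _ hy.injective, card_univ, Fintype.card_fin]

theorem high (s j : ℕ) : ∃ N : ℕ, (N : ℝ) = tow (s + 2) j ∧
    ∃ (P : Protocol (Bool × Bool) (s + 2)) (c : Finset ℕ → Bool × Bool),
      P.bits ≤ j + 4 * s + 2 ∧ Computes P N c ∧
        ∀ S ⊆ range N, S.card = 2 ^ s * (4 * j + s + 5) → ¬ Homogeneous (s + 3) c S := by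
  obtain ⟨P, hb, n, -, hn, hP⟩ := lower j s
  refine ⟨Mn j s, Mn_tow j s, P, colour P (false, false), hb, computes_colour P _ _, ?_⟩
  intro S hS hc hh
  obtain ⟨T, hT, hTc⟩ := exists_subset_card_eq (s := S) (n := n) (by omega)
  refine hP T (hT.trans hS) hTc (hom_of_homogeneous (computes_colour P (false, false) (Mn j s))
    (hT.trans hS) ?_)
  intro A hA B hB
  exact hh A (hA.trans hT) B (hB.trans hT)

end Pool.Agent.TH138.NF
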