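import Pool.Agent.TH138.NF.End

/-!
# From `s + 3` players to `s + 2` players
-/

set_option autoImplicit false

namespace Pool.Agent.TH138.NF

open Finset

variable {κ : Type} {r : ℕ}

/-- the functions at the nodes -/
def Protocol.nodes : Protocol κ r → List ((Fin r → ℕ) → Bool)
  | .out _ => []
  | .ask _ f P Q => f :: (P.nodes ++ Q.nodes)

theorem nodes_length (P : Protocol κ r) : P.nodes.length + 1 ≤ 2 ^ P.bits := by
  induction P with
  | out a => simp [Protocol.nodes, Protocol.bits]
  | ask j f P Q ihP ihQ =>
    simp only [Protocol.nodes, Protocol.bits, List.length_cons, List.length_append]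
    have h1 : 2 ^ P.bits ≤ 2 ^ max P.bits Q.bits :=
      Nat.pow_le_pow_right (by norm_num) (le_max_left _ _)
    have h2 : 2 ^ Q.bits ≤ 2 ^ max P.bits Q.bits :=
      Nat.pow_le_pow_right (by norm_num) (le_max_right _ _)
    rw [pow_succ]
    omega

/-- the protocol of the players `0, …, s + 1` for the indices of the vertices, the last vertex
being replaced by the top vertex `w` -/
def Protocol.proj {s : ℕ} (v : ℕ → ℕ) (w : ℕ) : Protocol κ (s + 2) → Protocol κ (s + 1)
  | .out a => .out a
  | .ask j f P Q => .ask (if h : j = Fin.last (s + 2) then Fin.last (s + 1) else j.castPred h)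
      (fun y => f (Fin.snoc (fun a => v (y a)) w)) (P.proj v w) (Q.proj v w)

theorem bits_proj {s : ℕ} (v : ℕ → ℕ) (w : ℕ) (P : Protocol κ (s + 2)) :
    (P.proj v w).bits = P.bits := by
  induction P with
  | out a => rfl
  | ask j f P Q ihP ihQ => simp [Protocol.proj, Protocol.bits, ihP, ihQ]

theorem removeNth_last_eq {s : ℕ} (i : Fin (s + 3) → ℕ) (v : ℕ → ℕ) :
    (Fin.last (s + 2)).removeNth (fun a => v (i a)) =
      Fin.snoc (fun a : Fin (s + 1) => v (i a.castSucc.castSucc))
        (v (i (Fin.last (s + 1)).castSucc)) := by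
  funext a
  rw [Fin.removeNth_apply, Fin.succAbove_last]
  refine Fin.lastCases ?_ (fun a => ?_) a
  · rw [Fin.snoc_last]
  · rw [Fin.snoc_castSucc]

theorem removeNth_castSucc_eq {s : ℕ} (i : Fin (s + 3) → ℕ) (v : ℕ → ℕ) (j : Fin (s + 2)) :
    j.castSucc.removeNth (fun a => v (i a)) =
      Fin.snoc (fun a : Fin (s + 1) => v (j.removeNth (fun b => i b.castSucc) a))
        (v (i (Fin.last (s + 2)))) := by
  funext a
  rw [Fin.removeNth_apply]
  refine Fin.lastCases ?_ (fun a => ?_) a
  · rw [Fin.snoc_last, Fin.succAbove_of_le_castSucc _ _ (by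
      rw [Fin.castSucc_le_castSucc_iff]; exact Fin.le_last j), Fin.succ_last]
  · rw [Fin.snoc_castSucc, Fin.castSucc_succAbove_castSucc]
    rfl

theorem run_proj {s : ℕ} (v : ℕ → ℕ) (w k : ℕ) (P : Protocol κ (s + 2))
    (hP : ∀ f ∈ P.nodes, ∀ i : Fin (s + 1) → ℕ, ∀ j < k, (∀ a, i a < j) →
      f (Fin.snoc (fun a => v (i a)) (v j)) = f (Fin.snoc (fun a => v (i a)) w))
    (i : Fin (s + 3) → ℕ) (hi : StrictMono i) (hk : ∀ a, i a < k) :
    P.run (fun a => v (i a)) = (P.proj v w).run (fun a => i a.castSucc) := by
  induction P with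
  | out a => rfl
  | ask j f P Q ihP ihQ =>
    have hf : f (j.removeNth (fun a => v (i a))) = f (Fin.snoc (fun a => v
        ((if h : j = Fin.last (s + 2) then Fin.last (s + 1) else j.castPred h).removeNth
          (fun b => i b.castSucc) a)) w) := by
      by_cases hj : j = Fin.last (s + 2)
      · rw [dif_pos hj, hj, removeNth_last_eq]
        rw [hP f (by simp [Protocol.nodes]) (fun a => i a.castSucc.castSucc) _ (hk _)
          (fun a => hi (by rw [Fin.castSucc_lt_castSucc_iff]; exact Fin.castSucc_lt_last a))]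
        congr 1
        funext a
        refine Fin.lastCases ?_ (fun a => ?_) a
        · rw [Fin.snoc_last, Fin.snoc_last]
        · rw [Fin.snoc_castSucc, Fin.snoc_castSucc, Fin.removeNth_apply, Fin.succAbove_last]
      · rw [dif_neg hj]
        obtain ⟨j', rfl⟩ : ∃ j' : Fin (s + 2), j = j'.castSucc :=
          ⟨j.castPred hj, (Fin.castSucc_castPred _ _).symm⟩
        rw [removeNth_castSucc_eq, Fin.castPred_castSucc]
        exact hP f (by simp [Protocol.nodes]) (fun a => j'.removeNth (fun b => i b.castSucc) a) _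
          (hk _) (fun a => hi (Fin.castSucc_lt_last _))
    simp only [Protocol.run, Protocol.proj]
    rw [hf, ihP (fun g hg => hP g (by simp [Protocol.nodes, hg])),
      ihQ (fun g hg => hP g (by simp [Protocol.nodes, hg]))]

/-- All increasing tuples in `S` get the same output. -/
def Hom (P : Protocol κ r) (S : Finset ℕ) : Prop :=
  ∀ x y : Fin (r + 1) → ℕ, StrictMono x → StrictMono y → (∀ i, x i ∈ S) → (∀ i, y i ∈ S) →
    P.run x = P.run y

/-- two players -/
theorem two (P : Protocol κ 1) : ∀ (V : Finset ℕ) (n : ℕ), 2 ^ P.bits * n ≤ V.card →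
    ∃ S ⊆ V, S.card = n ∧ Hom P S := by
  classical
  induction P with
  | out a =>
    intro V n hV
    obtain ⟨S, hS, hc⟩ := exists_subset_card_eq (s := V) (n := n) (by simpa [Protocol.bits] using hV)
    exact ⟨S, hS, hc, fun x y _ _ _ _ => rfl⟩
  | ask j f P Q ihP ihQ =>
    intro V n hV
    have key : ∀ (W : Finset ℕ) (b : Bool) (R : Protocol κ 1),
        (∀ u ∈ W, f (fun _ => u) = b) → (∀ x, (∀ i, x i ∈ W) →
          (Protocol.ask j f P Q).run x = R.run x) →
        (∃ S ⊆ W, S.card = n ∧ Hom R S) → W ⊆ V → ∃ S ⊆ V, S.card = n ∧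
          Hom (Protocol.ask j f P Q) S := by
      rintro W b R _ h2 ⟨S, hS, hc, hh⟩ hWV
      refine ⟨S, hS.trans hWV, hc, fun x y hx hy hxS hyS => ?_⟩
      rw [h2 x (fun i => hS (hxS i)), h2 y (fun i => hS (hyS i))]
      exact hh x y hx hy hxS hyS
    have hrem : ∀ (x : Fin 2 → ℕ), j.removeNth x = fun _ => x (j.succAbove 0) := by
      intro x
      funext a
      rw [Fin.removeNth_apply, Subsingleton.elim a 0]
    have hsum := card_filter_add_card_filter_not (s := V) (fun u => f (fun _ => u) = true)
    have hb1 : 2 ^ P.bits ≤ 2 ^ max P.bits Q.bits :=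
      Nat.pow_le_pow_right (by norm_num) (le_max_left _ _)
    have hb2 : 2 ^ Q.bits ≤ 2 ^ max P.bits Q.bits :=
      Nat.pow_le_pow_right (by norm_num) (le_max_right _ _)
    have hV' : 2 ^ max P.bits Q.bits * n * 2 ≤ V.card := by
      simp only [Protocol.bits] at hV
      calc _ = 2 ^ (max P.bits Q.bits + 1) * n := by ring
        _ ≤ _ := hV
    rcases Nat.lt_or_ge (V.filter (fun u => f (fun _ => u) = true)).card
        (2 ^ max P.bits Q.bits * n) with h | h
    · refine key (V.filter (fun u => ¬ f (fun _ => u) = true)) false P ?_ ?_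
        (ihP _ n ?_) (filter_subset _ _)
      · intro u hu
        simpa using (mem_filter.1 hu).2
      · intro x hx
        have := (mem_filter.1 (hx (j.succAbove 0))).2
        simp only [Protocol.run]
        rw [hrem x, if_neg this]
      · have : 2 ^ P.bits * n ≤ 2 ^ max P.bits Q.bits * n := Nat.mul_le_mul_right _ hb1
        omega
    · refine key (V.filter (fun u => f (fun _ => u) = true)) true Q ?_ ?_
        (ihQ _ n ?_) (filter_subset _ _)
      · intro u hu
        exact (mem_filter.1 hu).2
      · intro x hx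
        have := (mem_filter.1 (hx (j.succAbove 0))).2
        simp only [Protocol.run]
        rw [hrem x, if_pos this]
      · exact (Nat.mul_le_mul_right _ hb2).trans h

/-- The bound: `B b n s` for `s + 2` players. -/
def B (b n : ℕ) : ℕ → ℕ
  | 0 => 2 ^ b * n
  | s + 1 => (2 * 2 ^ (2 ^ b * ((s + 1) * (B b n s) ^ s))) ^ (B b n s)

/-- The upper bound. -/
theorem upper (n : ℕ) : ∀ (s : ℕ) (b : ℕ) (P : Protocol κ (s + 1)) (V : Finset ℕ), P.bits ≤ b →
    B b n s ≤ V.card → ∃ S ⊆ V, S.card = n ∧ Hom P S := by
  classical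
  intro s
  induction s with
  | zero =>
    intro b P V hb hV
    refine two P V n (le_trans (Nat.mul_le_mul_right _ ?_) hV)
    exact Nat.pow_le_pow_right (by norm_num) hb
  | succ s ih =>
    intro b P V hb hV
    set k := B b n s with hk
    let m := P.nodes.length
    let L : (Fin (s + 2) → ℕ) → (Fin m → Bool) := fun y a => P.nodes.get a y
    have hm : m + 1 ≤ 2 ^ b := (nodes_length P).trans (Nat.pow_le_pow_right (by norm_num) hb)
    have hcard : Fintype.card (Fin m → Bool) = 2 ^ m := by simp
    obtain ⟨v, W, hWV, hWc, hvV, hvm, hvW, -, h2⟩ := end_hom L V k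
      (2 * Fintype.card (Fin m → Bool) ^ ((s + 1) * k ^ s)) rfl (by
        refine le_trans ?_ hV
        rw [hcard, ← pow_mul]
        simp only [B, ← hk]
        apply Nat.pow_le_pow_left
        apply Nat.mul_le_mul_left
        apply Nat.pow_le_pow_right (by norm_num)
        apply Nat.mul_le_mul_right
        omega) k le_rfl
    have hWne : W.Nonempty := by
      rw [← card_pos]
      refine lt_of_lt_of_le ?_ hWc
      positivity
    obtain ⟨w, hw⟩ := hWne
    have hP : ∀ f ∈ P.nodes, ∀ i : Fin (s + 1) → ℕ, ∀ j < k, (∀ a, i a < j) →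
        f (Fin.snoc (fun a => v (i a)) (v j)) = f (Fin.snoc (fun a => v (i a)) w) := by
      intro f hf i j hj hij
      obtain ⟨a, ha⟩ := List.get_of_mem hf
      have := congrFun (h2 i j hj hij w hw) a
      simp only [L, ha] at this
      exact this
    obtain ⟨S', hS', hc', hh⟩ := ih b (P.proj v w) (range k) (by rw [bits_proj]; exact hb)
      (by rw [card_range])
    have hinj : Set.InjOn v (range k : Finset ℕ) := by
      intro i hi j hj hij
      rw [coe_range, Set.mem_Iio] at hi hj
      rcases lt_trichotomy i j with h | h | h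
      · exact absurd hij (hvm i j h hj).ne
      · exact h
      · exact absurd hij (hvm j i h hi).ne'
    refine ⟨S'.image v, ?_, ?_, ?_⟩
    · intro u hu
      obtain ⟨i, hi, rfl⟩ := mem_image.1 hu
      exact hvV i (mem_range.1 (hS' hi))
    · rw [card_image_of_injOn (hinj.mono (by exact_mod_cast hS')), hc']
    · have key : ∀ x : Fin (s + 3) → ℕ, StrictMono x → (∀ a, x a ∈ S'.image v) →
          ∃ i : Fin (s + 2) → ℕ, StrictMono i ∧ (∀ a, i a ∈ S') ∧
            P.run x = (P.proj v w).run i := by
        intro x hx hxS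
        have hch : ∀ a, ∃ i ∈ S', v i = x a := fun a => by
          simpa using mem_image.1 (hxS a)
        choose i hi hvi using hch
        have him : StrictMono i := by
          intro a a' haa'
          by_contra hle
          push Not at hle
          have h3 := hx haa'
          rw [← hvi a, ← hvi a'] at h3
          rcases Nat.lt_or_eq_of_le hle with h | h
          · exact absurd (hvm _ _ h (mem_range.1 (hS' (hi a)))) (not_lt.2 h3.le)
          · rw [h] at h3; exact lt_irrefl _ h3
        refine ⟨fun a => i a.castSucc, fun a a' h => him (by simpa using h),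
          fun a => hi _, ?_⟩
        have hxe : x = fun a => v (i a) := by
          funext a
          rw [hvi]
        rw [hxe]
        exact run_proj v w k P hP i him (fun a => mem_range.1 (hS' (hi a)))
      intro x y hx hy hxS hyS
      obtain ⟨i, hi1, hi2, hi3⟩ := key x hx hxS
      obtain ⟨i', hi1', hi2', hi3'⟩ := key y hy hyS
      rw [hi3, hi3']
      exact hh i i' hi1 hi1' hi2 hi2'

end Pool.Agent.TH138.NF
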