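import Pool.Agent.TH138.NF.Proj
import Pool.Agent.TH138.NF.HD

/-!
# Stepping up preserves the number-on-the-forehead complexity
-/

set_option autoImplicit false

namespace Pool.Agent.TH138.NF

open Finset

variable {κ : Type}

/-- the tuple of the highest differing digits of neighbours -/
def D {m : ℕ} (y : Fin (m + 1) → ℕ) : Fin m → ℕ := fun i => hd (y i.castSucc) (y i.succ)

/-- the simulation if the highest differing digits increase -/
def Protocol.up {t : ℕ} : Protocol κ t → Protocol κ (t + 1)
  | .out a => .out a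
  | .ask j f P Q => .ask j.succ (fun y => f (D y)) P.up Q.up

/-- the simulation if the highest differing digits decrease -/
def Protocol.dn {t : ℕ} : Protocol κ t → Protocol κ (t + 1)
  | .out a => .out a
  | .ask j f P Q => .ask j.rev.castSucc (fun y => f (fun i => D y i.rev)) P.dn Q.dn

theorem bits_up {t : ℕ} (P : Protocol κ t) : P.up.bits = P.bits := by
  induction P with
  | out a => rfl
  | ask j f P Q ihP ihQ => simp [Protocol.up, Protocol.bits, ihP, ihQ]

theorem bits_dn {t : ℕ} (P : Protocol κ t) : P.dn.bits = P.bits := by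
  induction P with
  | out a => rfl
  | ask j f P Q ihP ihQ => simp [Protocol.dn, Protocol.bits, ihP, ihQ]

theorem D_succ {t : ℕ} (x : Fin (t + 2) → ℕ) (hx : StrictMono x) (hD : StrictMono (D x))
    (j : Fin (t + 1)) : D (j.succ.removeNth x) = j.removeNth (D x) := by
  funext i
  rw [Fin.removeNth_apply]
  simp only [D, Fin.removeNth_apply]
  rw [Fin.succ_succAbove_succ]
  rcases lt_trichotomy i.castSucc j with h | h | h
  · rw [Fin.succAbove_of_castSucc_lt _ _ h]
    rw [Fin.succAbove_of_castSucc_lt]
    rw [Fin.lt_def] at h ⊢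
    simp only [Fin.val_castSucc, Fin.val_succ] at h ⊢
    omega
  · have h1 : j.succAbove i = i.succ := Fin.succAbove_of_le_castSucc _ _ h.ge
    have h2 : j.succ.succAbove i.castSucc = i.castSucc.castSucc := by
      apply Fin.succAbove_of_castSucc_lt
      rw [Fin.lt_def]
      rw [← h]
      simp
    rw [h1, h2]
    have h3 : D x i.castSucc < D x i.succ := hD (Fin.castSucc_lt_succ)
    have h4 := hd_max (hx (Fin.castSucc_lt_succ (i := i.castSucc)))
      (hx (Fin.castSucc_lt_succ (i := i.succ)))
    simp only [D] at h3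
    rw [Fin.succ_castSucc] at h3 h4
    rw [h4]
    exact max_eq_right h3.le
  · have h1 : j.succAbove i = i.succ := Fin.succAbove_of_le_castSucc _ _ h.le
    have h2 : j.succ.succAbove i.castSucc = i.castSucc.succ := by
      apply Fin.succAbove_of_le_castSucc
      rw [Fin.lt_def] at h
      rw [Fin.le_def]
      simp only [Fin.val_castSucc, Fin.val_succ] at h ⊢
      omega
    rw [h1, h2, Fin.succ_castSucc]

theorem D_castSucc {t : ℕ} (x : Fin (t + 2) → ℕ) (hx : StrictMono x) (hD : StrictAnti (D x))
    (l : Fin (t + 1)) : D (l.castSucc.removeNth x) = l.removeNth (D x) := by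
  funext i
  rw [Fin.removeNth_apply]
  simp only [D, Fin.removeNth_apply]
  rw [Fin.castSucc_succAbove_castSucc]
  rcases lt_trichotomy i.succ l with h | h | h
  · have h1 : l.succAbove i = i.castSucc := by
      apply Fin.succAbove_of_castSucc_lt
      exact lt_trans Fin.castSucc_lt_succ h
    have h2 : l.castSucc.succAbove i.succ = i.succ.castSucc := by
      apply Fin.succAbove_of_castSucc_lt
      rwa [Fin.castSucc_lt_castSucc_iff]
    rw [h1, h2, Fin.succ_castSucc]
  · have h1 : l.succAbove i = i.castSucc := by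
      apply Fin.succAbove_of_castSucc_lt
      rw [← h]
      exact Fin.castSucc_lt_succ
    have h2 : l.castSucc.succAbove i.succ = i.succ.succ := by
      apply Fin.succAbove_of_le_castSucc
      rw [← h]
    rw [h1, h2]
    have h3 : D x i.succ < D x i.castSucc := hD (Fin.castSucc_lt_succ)
    have h4 := hd_max (hx (Fin.castSucc_lt_succ (i := i.castSucc)))
      (hx (Fin.castSucc_lt_succ (i := i.succ)))
    simp only [D] at h3
    rw [Fin.succ_castSucc] at h3 h4
    rw [h4, Fin.succ_castSucc]
    exact max_eq_left h3.le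
  · have h1 : l.succAbove i = i.succ := by
      apply Fin.succAbove_of_le_castSucc
      rw [Fin.lt_def] at h
      rw [Fin.le_def]
      simp only [Fin.val_castSucc, Fin.val_succ] at h ⊢
      omega
    have h2 : l.castSucc.succAbove i.succ = i.succ.succ := by
      apply Fin.succAbove_of_le_castSucc
      rw [Fin.castSucc_le_castSucc_iff]
      exact h.le
    rw [h1, h2]

theorem run_up {t : ℕ} (P : Protocol κ t) (x : Fin (t + 2) → ℕ) (hx : StrictMono x)
    (hD : StrictMono (D x)) : P.up.run x = P.run (D x) := by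
  induction P with
  | out a => rfl
  | ask j f P Q ihP ihQ =>
    simp only [Protocol.run, Protocol.up]
    rw [D_succ x hx hD, ihP, ihQ]

theorem run_dn {t : ℕ} (P : Protocol κ t) (x : Fin (t + 2) → ℕ) (hx : StrictMono x)
    (hD : StrictAnti (D x)) : P.dn.run x = P.run (fun i => D x i.rev) := by
  induction P with
  | out a => rfl
  | ask j f P Q ihP ihQ =>
    simp only [Protocol.run, Protocol.dn]
    rw [D_castSucc x hx hD, ihP, ihQ]
    have : (fun i : Fin t => j.rev.removeNth (D x) i.rev) =
        j.removeNth (fun i => D x i.rev) := by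
      funext i
      rw [Fin.removeNth_apply, Fin.removeNth_apply, Fin.rev_succAbove]
    rw [this]

open Classical in
/-- the protocol of the stepped-up colouring for digits that are not monotone -/
noncomputable def loc (t : ℕ) : Protocol (Bool × Bool) (t + 3) :=
  .ask (Fin.last _) (fun y => decide (D y 0 < D y 1))
    (.ask 0 (fun y => decide (D y 1 < D y 0)) (.out (true, true)) (.out (false, false)))
    (.out (false, false))

open Classical in
/-- the protocol of the stepped-up colouring -/
noncomputable def Protocol.step {t : ℕ} (P : Protocol (Bool × Bool) (t + 2)) :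
    Protocol (Bool × Bool) (t + 3) :=
  .ask (Fin.last _) (fun y => decide (StrictMono (D y)))
    (.ask (Fin.last _) (fun y => decide (StrictAnti (D y))) (loc t)
      (.ask 0 (fun y => decide (StrictAnti (D y))) (loc t) P.dn))
    (.ask 0 (fun y => decide (StrictMono (D y)))
      (.ask (Fin.last _) (fun y => decide (StrictAnti (D y))) (loc t)
        (.ask 0 (fun y => decide (StrictAnti (D y))) (loc t) P.dn))
      P.up)

theorem bits_step {t : ℕ} (P : Protocol (Bool × Bool) (t + 2)) (b : ℕ) (hb : P.bits ≤ b)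
    (h2 : 2 ≤ b) : P.step.bits ≤ b + 4 := by
  simp only [Protocol.step, Protocol.bits, loc, bits_up, bits_dn]
  omega

theorem D_init {t : ℕ} (x : Fin (t + 2) → ℕ) (i : Fin t) :
    D ((Fin.last (t + 1)).removeNth x) i = D x i.castSucc := by
  simp only [D, Fin.removeNth_apply, Fin.succAbove_last, Fin.succ_castSucc]

theorem D_tail {t : ℕ} (x : Fin (t + 2) → ℕ) (i : Fin t) :
    D ((0 : Fin (t + 2)).removeNth x) i = D x i.succ := by
  simp only [D, Fin.removeNth_apply, Fin.zero_succAbove, Fin.succ_castSucc]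

theorem run_inc {t : ℕ} (P : Protocol (Bool × Bool) (t + 2)) (x : Fin (t + 4) → ℕ)
    (hx : StrictMono x) (hD : StrictMono (D x)) : P.step.run x = P.run (D x) := by
  have h1 : StrictMono (D ((Fin.last (t + 3)).removeNth x)) := by
    intro i j hij
    rw [D_init, D_init]
    exact hD (by simpa using hij)
  have h2 : StrictMono (D ((0 : Fin (t + 4)).removeNth x)) := by
    intro i j hij
    rw [D_tail, D_tail]
    exact hD (by simpa using hij)
  simp only [Protocol.step, Protocol.run, h1, h2, decide_true, if_true]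
  exact run_up P x hx hD

theorem run_dec {t : ℕ} (P : Protocol (Bool × Bool) (t + 2)) (x : Fin (t + 4) → ℕ)
    (hx : StrictMono x) (hD : StrictAnti (D x)) : P.step.run x = P.run (fun i => D x i.rev) := by
  have h1 : StrictAnti (D ((Fin.last (t + 3)).removeNth x)) := by
    intro i j hij
    rw [D_init, D_init]
    exact hD (by simpa using hij)
  have h2 : StrictAnti (D ((0 : Fin (t + 4)).removeNth x)) := by
    intro i j hij
    rw [D_tail, D_tail]
    exact hD (by simpa using hij)
  have h3 : ¬ StrictMono (D ((Fin.last (t + 3)).removeNth x)) := by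
    intro h
    have e1 := h (a := 0) (b := 1) (by simp)
    have e2 := h1 (a := 0) (b := 1) (by simp)
    exact lt_asymm e1 e2
  simp only [Protocol.step, Protocol.run, h1, h2, h3, decide_true, decide_false, if_true]
  exact run_dn P x hx hD

theorem run_loc {t : ℕ} (P : Protocol (Bool × Bool) (t + 2)) (x : Fin (t + 4) → ℕ)
    (h1 : ¬ (StrictMono (D ((Fin.last (t + 3)).removeNth x)) ∧
      StrictMono (D ((0 : Fin (t + 4)).removeNth x))))
    (h2 : ¬ (StrictAnti (D ((Fin.last (t + 3)).removeNth x)) ∧
      StrictAnti (D ((0 : Fin (t + 4)).removeNth x)))) : P.step.run x = (loc t).run x := by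
  simp only [Protocol.step, Protocol.run, decide_eq_true_eq]
  by_cases a1 : StrictMono (D ((Fin.last (t + 3)).removeNth x))
  · have a2 : ¬ StrictMono (D ((0 : Fin (t + 4)).removeNth x)) := fun h => h1 ⟨a1, h⟩
    rw [if_pos a1, if_neg a2]
    by_cases b1 : StrictAnti (D ((Fin.last (t + 3)).removeNth x))
    · rw [if_pos b1, if_neg (fun h => h2 ⟨b1, h⟩)]
    · rw [if_neg b1]
  · rw [if_neg a1]
    by_cases b1 : StrictAnti (D ((Fin.last (t + 3)).removeNth x))
    · rw [if_pos b1, if_neg (fun h => h2 ⟨b1, h⟩)]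
    · rw [if_neg b1]

theorem run_min {t : ℕ} (P : Protocol (Bool × Bool) (t + 2)) (x : Fin (t + 4) → ℕ)
    (ha : D x 1 < D x 0) (hb : D x 1 < D x 2) : P.step.run x = (true, true) := by
  have i0 : D ((Fin.last (t + 3)).removeNth x) 0 = D x 0 := by rw [D_init]; rfl
  have i1 : D ((Fin.last (t + 3)).removeNth x) 1 = D x 1 := by rw [D_init]; rfl
  have t0 : D ((0 : Fin (t + 4)).removeNth x) 0 = D x 1 := by rw [D_tail]; rfl
  have t1 : D ((0 : Fin (t + 4)).removeNth x) 1 = D x 2 := by rw [D_tail]; rfl
  rw [run_loc]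
  · simp only [loc, Protocol.run, i0, i1, t0, t1]
    rw [if_neg (by simpa using ha.le), if_neg (by simpa using hb.le)]
  · rintro ⟨h, -⟩
    have e1 := h (a := 0) (b := 1) (by simp)
    rw [i0, i1] at e1
    omega
  · rintro ⟨-, h⟩
    have e1 := h (a := 0) (b := 1) (by simp)
    rw [t0, t1] at e1
    omega

theorem run_max {t : ℕ} (P : Protocol (Bool × Bool) (t + 2)) (x : Fin (t + 4) → ℕ)
    (ha : D x 0 < D x 1) (hb : D x 2 < D x 1) : P.step.run x = (false, false) := by
  have i0 : D ((Fin.last (t + 3)).removeNth x) 0 = D x 0 := by rw [D_init]; rfl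
  have i1 : D ((Fin.last (t + 3)).removeNth x) 1 = D x 1 := by rw [D_init]; rfl
  have t0 : D ((0 : Fin (t + 4)).removeNth x) 0 = D x 1 := by rw [D_tail]; rfl
  have t1 : D ((0 : Fin (t + 4)).removeNth x) 1 = D x 2 := by rw [D_tail]; rfl
  rw [run_loc]
  · simp only [loc, Protocol.run, i0, i1]
    rw [if_pos (by simpa using ha)]
  · rintro ⟨-, h⟩
    have e1 := h (a := 0) (b := 1) (by simp)
    rw [t0, t1] at e1
    omega
  · rintro ⟨h, -⟩
    have e1 := h (a := 0) (b := 1) (by simp)
    rw [i0, i1] at e1
    omega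

/-- realization in an increasing stretch -/
theorem real_inc {m : ℕ} (y : ℕ → ℕ) (K : ℕ) (hy : ∀ i, i < K → y i < y (i + 1))
    (he : ∀ i, i + 1 < K → hd (y i) (y (i + 1)) < hd (y (i + 1)) (y (i + 2)))
    (idx : Fin (m + 1) → ℕ) (hi : StrictMono idx) (hK : ∀ l, idx l < K) :
    ∃ x : Fin (m + 2) → ℕ, StrictMono x ∧ (∀ l, ∃ i ≤ K, x l = y i) ∧
      D x = fun l => hd (y (idx l)) (y (idx l + 1)) := by
  have hyy : ∀ i k, i < k → k ≤ K → y i < y k := fun i k h1 h2 => (hd_inc y K hy he i k h1 h2).1
  refine ⟨Fin.cons (y (idx 0)) (fun l => y (idx l + 1)), ?_, ?_, ?_⟩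
  · rw [Fin.strictMono_iff_lt_succ]
    intro l
    refine Fin.cases ?_ (fun l => ?_) l
    · simp only [Fin.castSucc_zero, Fin.cons_zero, Fin.cons_succ]
      exact hy _ (hK 0)
    · rw [← Fin.succ_castSucc, Fin.cons_succ, Fin.cons_succ]
      have h1 : idx l.castSucc < idx l.succ := hi (Fin.castSucc_lt_succ)
      exact hyy _ _ (by omega) (hK _)
  · intro l
    refine Fin.cases ?_ (fun l => ?_) l
    · exact ⟨idx 0, (hK 0).le, by simp⟩
    · exact ⟨idx l + 1, hK l, by simp⟩
  · funext l
    simp only [D]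
    rw [Fin.cons_succ]
    revert l
    refine Fin.cases ?_ (fun l => ?_)
    · simp
    · rw [← Fin.succ_castSucc, Fin.cons_succ]
      have h1 : idx l.castSucc < idx l.succ := hi (Fin.castSucc_lt_succ)
      have h2 := (hd_inc y K hy he (idx l.castSucc + 1) (idx l.succ + 1) (by omega) (hK _)).2
      rw [h2]
      simp

/-- realization in a decreasing stretch -/
theorem real_dec {m : ℕ} (y : ℕ → ℕ) (K : ℕ) (hy : ∀ i, i < K → y i < y (i + 1))
    (he : ∀ i, i + 1 < K → hd (y (i + 1)) (y (i + 2)) < hd (y i) (y (i + 1)))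
    (idx : Fin (m + 1) → ℕ) (hi : StrictMono idx) (hK : ∀ l, idx l < K) :
    ∃ x : Fin (m + 2) → ℕ, StrictMono x ∧ (∀ l, ∃ i ≤ K, x l = y i) ∧
      D x = fun l => hd (y (idx l)) (y (idx l + 1)) := by
  have hyy : ∀ i k, i < k → k ≤ K → y i < y k := fun i k h1 h2 => (hd_dec y K hy he i k h1 h2).1
  refine ⟨Fin.snoc (fun l => y (idx l)) (y (idx (Fin.last m) + 1)), ?_, ?_, ?_⟩
  · rw [Fin.strictMono_iff_lt_succ]
    intro l
    refine Fin.lastCases ?_ (fun l => ?_) l
    · rw [Fin.snoc_castSucc, Fin.succ_last, Fin.snoc_last]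
      exact hy _ (hK _)
    · rw [Fin.snoc_castSucc, Fin.succ_castSucc, Fin.snoc_castSucc]
      have h1 : idx l.castSucc < idx l.succ := hi (Fin.castSucc_lt_succ)
      exact hyy _ _ h1 (hK _).le
  · intro l
    refine Fin.lastCases ?_ (fun l => ?_) l
    · exact ⟨idx (Fin.last m) + 1, hK _, by simp⟩
    · exact ⟨idx l, (hK l).le, by simp⟩
  · funext l
    simp only [D]
    rw [Fin.snoc_castSucc]
    revert l
    refine Fin.lastCases ?_ (fun l => ?_)
    · rw [Fin.succ_last, Fin.snoc_last]
    · rw [Fin.succ_castSucc, Fin.snoc_castSucc]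
      have h1 : idx l.castSucc < idx l.succ := hi (Fin.castSucc_lt_succ)
      exact (hd_dec y K hy he (idx l.castSucc) (idx l.succ) h1 (hK _).le).2.1

end Pool.Agent.TH138.NF
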